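import Pool.Agent.V11201.LC.Def
import Pool.Agent.V11201.EB.Gen
import Pool.Agent.V11201.EB.Ev

set_option autoImplicit false
set_option linter.unusedSectionVars false
open Finset

namespace Pool.Agent.V11201.LC
open Pool.Agent.V11201.RP Pool.Agent.V11201.EB

/-- the number of positions -/
def pc (n x : ℕ) : ℕ := ((List.range n).filter (fun i => Nat.testBit x i)).length

theorem card_ms (n x : ℕ) : (ms n x).card = pc n x := by
  have h1 : (ms n x).map Fin.valEmbedding = (Finset.range n).filter (fun i => x.testBit i) := by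
    ext j
    rw [mem_map, mem_filter, mem_range]
    constructor
    · rintro ⟨i, hi, rfl⟩
      exact ⟨i.2, mem_ms.1 hi⟩
    · rintro ⟨h1, h2⟩
      exact ⟨⟨j, h1⟩, mem_ms.2 h2, rfl⟩
  rw [← card_map Fin.valEmbedding, h1]
  have h2 : ((Finset.range n).filter (fun i => x.testBit i = true)).card =
      ((List.range n).filter (fun i => decide (x.testBit i = true))).length := rfl
  rw [h2, pc]
  simp

theorem ms_inj {n x y : ℕ} (hx : x < 2 ^ n) (hy : y < 2 ^ n) (h : ms n x = ms n y) : x = y := by
  apply Nat.eq_of_testBit_eq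
  intro j
  rcases lt_or_ge j n with hj | hj
  · have h1 : (⟨j, hj⟩ : Fin n) ∈ ms n x ↔ (⟨j, hj⟩ : Fin n) ∈ ms n y := by rw [h]
    rw [mem_ms, mem_ms] at h1
    cases hx' : x.testBit j <;> cases hy' : y.testBit j <;> simp_all
  · have h2 : 2 ^ n ≤ 2 ^ j := Nat.pow_le_pow_right (by norm_num) hj
    rw [Nat.testBit_lt_two_pow (hx.trans_le h2), Nat.testBit_lt_two_pow (hy.trans_le h2)]

theorem ms_and (n x y : ℕ) : ms n (Nat.land x y) = ms n x ∩ ms n y := by
  ext i
  rw [mem_inter, mem_ms, mem_ms, mem_ms]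
  change (x &&& y).testBit i = true ↔ _
  rw [Nat.testBit_and, Bool.and_eq_true]

/-- the family of a list of masks -/
def toF (n : ℕ) (l : List ℕ) : Finset (Finset (Fin n)) := (l.map (ms n)).toFinset

theorem mem_toF {n : ℕ} {l : List ℕ} {s : Finset (Fin n)} : s ∈ toF n l ↔ ∃ g ∈ l, ms n g = s := by
  rw [toF, List.mem_toFinset, List.mem_map]

theorem toF_cons (n : ℕ) (x : ℕ) (l : List ℕ) : toF n (x :: l) = insert (ms n x) (toF n l) := by
  ext s
  rw [mem_insert, mem_toF, mem_toF]
  constructor
  · rintro ⟨g, hg, rfl⟩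
    rcases List.mem_cons.1 hg with rfl | hg
    · exact Or.inl rfl
    · exact Or.inr ⟨g, hg, rfl⟩
  · rintro (rfl | ⟨g, hg, rfl⟩)
    · exact ⟨x, by simp, rfl⟩
    · exact ⟨g, List.mem_cons_of_mem _ hg, rfl⟩

/-- a chain of facets around a face -/
def chn (A G : List ℕ) (e : ℕ) : ℕ → List ℕ → ℕ → Bool
  | x, [], q => Nat.beq x q
  | x, y :: t, q => A.contains x && A.contains y && G.contains (Nat.land x y) &&
      sb e (Nat.land x y) && chn A G e y t q

theorem chn_spec {n : ℕ} {A G : List ℕ} {e : ℕ} {x : ℕ} {t : List ℕ} {q : ℕ}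
    (h : chn A G e x t q = true) : SameFace (toF n A) (toF n G) (ms n e) (ms n x) (ms n q) := by
  induction t generalizing x with
  | nil =>
    unfold chn at h
    rw [Nat.eq_of_beq_eq_true h]
    exact Relation.ReflTransGen.refl
  | cons y t ih =>
    unfold chn at h
    simp only [Bool.and_eq_true, List.contains_iff_mem] at h
    obtain ⟨⟨⟨⟨h1, h2⟩, h3⟩, h4⟩, h5⟩ := h
    refine Relation.ReflTransGen.head ?_ (ih h5)
    refine ⟨mem_toF.2 ⟨x, h1, rfl⟩, mem_toF.2 ⟨y, h2, rfl⟩, ms n (Nat.land x y),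
      mem_toF.2 ⟨_, h3, rfl⟩, sub_ms h4, ?_, ?_⟩
    · rw [ms_and]; exact inter_subset_left
    · rw [ms_and]; exact inter_subset_right

/-- the check of a local construction in dimension three -/
def run (n : ℕ) (l : List ℕ) :
    List (ℕ × ℕ × ℕ × ℕ × List ℕ) → List ℕ → List ℕ → List ℕ → List ℕ → Bool
  | [], A, G, A', G' => A == A' && G == G'
  | (k, P, Q, e, ch) :: t, A, G, A', G' =>
      bif Nat.beq k 0 then
        A.contains P && !A.contains Q && l.contains Q && Nat.beq (pc n (Nat.land P Q)) 3 &&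
          !G.contains (Nat.land P Q) && run n l t (Q :: A) (Nat.land P Q :: G) A' G'
      else
        A.contains P && A.contains Q && !Nat.beq P Q && Nat.beq (pc n (Nat.land P Q)) 3 &&
          !G.contains (Nat.land P Q) && sb e (Nat.land P Q) && Nat.beq (pc n e) 2 &&
          chn A G e P ch Q && run n l t A (Nat.land P Q :: G) A' G'

theorem run_spec {n : ℕ} {K : Finset (Finset (Fin n))} {l : List ℕ}
    (hl : ∀ g ∈ l, g < 2 ^ n) (hK : ∀ g ∈ l, ms n g ∈ facets K 3)
    {t : List (ℕ × ℕ × ℕ × ℕ × List ℕ)} {A G A' G' : List ℕ}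
    (hA : ∀ a ∈ A, a ∈ l) (hG : ∀ g ∈ G, g < 2 ^ n) (h : run n l t A G A' G' = true)
    (h0 : Stage K 3 (toF n A) (toF n G)) :
    Stage K 3 (toF n A') (toF n G') := by
  induction t generalizing A G with
  | nil =>
    unfold run at h
    rw [Bool.and_eq_true, beq_iff_eq, beq_iff_eq] at h
    rw [← h.1, ← h.2]
    exact h0
  | cons x t ih =>
    obtain ⟨k, P, Q, e, ch⟩ := x
    unfold run at h
    have hne : ∀ {a b : ℕ}, Nat.beq a b = false → a ≠ b := by
      intro a b hab h
      rw [h, Nat.beq_refl] at hab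
      exact absurd hab (by decide)
    cases hk : Nat.beq k 0 with
    | true =>
      rw [hk, cond_true] at h
      simp only [Bool.and_eq_true, Bool.not_eq_true', List.contains_iff_mem] at h
      obtain ⟨⟨⟨⟨⟨h1, h2⟩, h3⟩, h4⟩, h5⟩, h6⟩ := h
      have h2' : Q ∉ A := by
        intro hh
        rw [← List.contains_iff_mem, h2] at hh
        exact Bool.false_ne_true hh
      have h5' : Nat.land P Q ∉ G := by
        intro hh
        rw [← List.contains_iff_mem, h5] at hh
        exact Bool.false_ne_true hh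
      have hP := hl P (hA P h1)
      have hQ := hl Q h3
      have hr : Nat.land P Q < 2 ^ n := lt_of_le_of_lt Nat.and_le_left hP
      refine ih ?_ ?_ h6 ?_
      · intro a ha
        rcases List.mem_cons.1 ha with rfl | ha
        · exact h3
        · exact hA a ha
      · intro g hg
        rcases List.mem_cons.1 hg with rfl | hg
        · exact hr
        · exact hG g hg
      · rw [toF_cons, toF_cons]
        refine Stage.attach _ _ (ms n Q) (ms n P) (ms n (Nat.land P Q)) h0 (hK Q h3) ?_
          (mem_toF.2 ⟨P, h1, rfl⟩) ?_ ?_ ?_ ?_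
        · intro hh
          obtain ⟨g, hg, hg'⟩ := mem_toF.1 hh
          exact h2' ((ms_inj (hl g (hA g hg)) hQ hg') ▸ hg)
        · rw [card_ms, Nat.eq_of_beq_eq_true h4]
        · rw [ms_and]; exact inter_subset_right
        · rw [ms_and]; exact inter_subset_left
        · intro hh
          obtain ⟨g, hg, hg'⟩ := mem_toF.1 hh
          exact h5' ((ms_inj (hG g hg) hr hg') ▸ hg)
    | false =>
      rw [hk, cond_false] at h
      simp only [Bool.and_eq_true, Bool.not_eq_true', List.contains_iff_mem] at h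
      obtain ⟨⟨⟨⟨⟨⟨⟨⟨h1, h2⟩, h3⟩, h4⟩, h5⟩, h6⟩, h7⟩, h8⟩, h9⟩ := h
      have h5' : Nat.land P Q ∉ G := by
        intro hh
        rw [← List.contains_iff_mem, h5] at hh
        exact Bool.false_ne_true hh
      have hP := hl P (hA P h1)
      have hQ := hl Q (hA Q h2)
      have hr : Nat.land P Q < 2 ^ n := lt_of_le_of_lt Nat.and_le_left hP
      refine ih hA ?_ h9 ?_
      · intro g hg
        rcases List.mem_cons.1 hg with rfl | hg
        · exact hr
        · exact hG g hg
      · rw [toF_cons]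
        refine Stage.glue _ _ (ms n P) (ms n Q) (ms n (Nat.land P Q)) (ms n e) h0
          (mem_toF.2 ⟨P, h1, rfl⟩) (mem_toF.2 ⟨Q, h2, rfl⟩) ?_ ?_ ?_ ?_ ?_ (sub_ms h6) ?_
          (chn_spec h8)
        · intro hh
          exact hne h3 (ms_inj hP hQ hh)
        · rw [card_ms, Nat.eq_of_beq_eq_true h4]
        · rw [ms_and]; exact inter_subset_left
        · rw [ms_and]; exact inter_subset_right
        · intro hh
          obtain ⟨g, hg, hg'⟩ := mem_toF.1 hh
          exact h5' ((ms_inj (hG g hg) hr hg') ▸ hg)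
        · rw [card_ms, Nat.eq_of_beq_eq_true h7]

theorem same_symm {n : ℕ} {A G : Finset (Finset (Fin n))} {e P Q : Finset (Fin n)}
    (h : SameFace A G e P Q) : SameFace A G e Q P := by
  unfold SameFace at h
  induction h with
  | refl => exact Relation.ReflTransGen.refl
  | tail _ h2 ih =>
    obtain ⟨h3, h4, r, hr, h5, h6, h7⟩ := h2
    exact Relation.ReflTransGen.head ⟨h4, h3, r, hr, h5, h7, h6⟩ ih

/-- the check that the members of a list are reached from a start list -/
def ord (G : List ℕ) (e : ℕ) : List ℕ → List ℕ → Bool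
  | _, [] => true
  | B, q :: t => sb e q && B.any (fun p => G.contains (Nat.land p q)) && ord G e (q :: B) t

theorem ord_spec {n : ℕ} {A G : List ℕ} {e : ℕ} {x : ℕ} {B t : List ℕ}
    (hB : ∀ p ∈ B, p ∈ A ∧ sb e p = true ∧
      SameFace (toF n A) (toF n G) (ms n e) (ms n x) (ms n p))
    (ht : ∀ q ∈ t, q ∈ A) (h : ord G e B t = true) :
    ∀ q ∈ t, SameFace (toF n A) (toF n G) (ms n e) (ms n x) (ms n q) := by
  induction t generalizing B with
  | nil => intro q hq; simp at hq
  | cons y t ih =>
    unfold ord at h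
    simp only [Bool.and_eq_true, List.any_eq_true, List.contains_iff_mem] at h
    obtain ⟨⟨h1, p, hp, h2⟩, h3⟩ := h
    obtain ⟨e1, e2, e3⟩ := hB p hp
    have key : SameFace (toF n A) (toF n G) (ms n e) (ms n x) (ms n y) := by
      refine Relation.ReflTransGen.tail e3 ?_
      refine ⟨mem_toF.2 ⟨p, e1, rfl⟩, mem_toF.2 ⟨y, ht y (by simp), rfl⟩, ms n (Nat.land p y),
        mem_toF.2 ⟨_, h2, rfl⟩, ?_, ?_, ?_⟩
      · rw [ms_and]
        exact subset_inter (sub_ms e2) (sub_ms h1)
      · rw [ms_and]; exact inter_subset_left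
      · rw [ms_and]; exact inter_subset_right
    intro q hq
    rcases List.mem_cons.1 hq with rfl | hq
    · exact key
    · refine ih (B := y :: B) ?_ (fun q hq => ht q (List.mem_cons_of_mem _ hq)) h3 q hq
      intro p' hp'
      rcases List.mem_cons.1 hp' with rfl | hp'
      · exact ⟨ht _ (by simp), h1, key⟩
      · exact hB p' hp'

/-- the check of the table of faces: the mask, the first facet and the other facets -/
def tabOK (n : ℕ) (l A G : List ℕ) (t : ℕ × ℕ × List ℕ) : Bool :=
  A.contains t.2.1 && sb t.1 t.2.1 && t.2.2.all (fun q => A.contains q) && ord G t.1 [t.2.1] t.2.2 &&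
    l.all (fun g => !sb t.1 g || Nat.beq g t.2.1 || t.2.2.contains g) &&
    (!Nat.beq (pc n t.1) 3 || Nat.ble t.2.2.length 1)

theorem foldr_one_tb (tab : List (ℕ × ℕ × List ℕ)) (j : ℕ) :
    (tab.foldr (fun t r => Nat.lor (Nat.pow 2 t.1) r) 1).testBit j = true ↔
      j = 0 ∨ ∃ t ∈ tab, t.1 = j := by
  induction tab with
  | nil =>
    have : (1 : ℕ) = 2 ^ 0 := by norm_num
    rw [List.foldr_nil, this, Nat.testBit_two_pow, decide_eq_true_iff, eq_comm]
    simp
  | cons x l ih =>
    rw [List.foldr_cons]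
    change (2 ^ x.1 ||| _).testBit j = true ↔ _
    rw [Nat.testBit_or, Bool.or_eq_true, ih, Nat.testBit_two_pow, decide_eq_true_iff]
    simp only [List.mem_cons, exists_eq_or_imp]
    tauto

theorem foldr_dcl_tb (m : ℕ) (l : List ℕ) (j : ℕ) :
    (l.foldr (fun g r => Nat.lor (dcl g m) r) 0).testBit j = true ↔
      ∃ g ∈ l, (dcl g m).testBit j = true := by
  induction l with
  | nil => simp
  | cons x l ih =>
    rw [List.foldr_cons]
    change (dcl x m ||| _).testBit j = true ↔ _
    rw [Nat.testBit_or, Bool.or_eq_true, ih]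
    simp

theorem mem_dec_foldr {m X : ℕ} {l : List ℕ}
    (hX : X = l.foldr (fun g r => Nat.lor (dcl g m) r) 0) {s : Finset (Fin m)} :
    s ∈ dec m X ↔ ∃ g ∈ l, s ⊆ ms m g := by
  rw [mem_dec, hX, foldr_dcl_tb]
  constructor
  · rintro ⟨g, hg, h⟩
    refine ⟨g, hg, ?_⟩
    rw [dcl_tb] at h
    intro i hi
    exact mem_ms.2 (h.2 i ((cd_tb_fin _ _).2 hi))
  · rintro ⟨g, hg, h⟩
    refine ⟨g, hg, ?_⟩
    rw [dcl_tb]
    refine ⟨cd_lt s, ?_⟩
    intro j hj
    obtain ⟨i, hi, rfl⟩ := (cd_tb _ _).1 hj
    exact mem_ms.1 (h hi)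

theorem isComplex_of {m X : ℕ} {l : List ℕ}
    (hX : X = l.foldr (fun g r => Nat.lor (dcl g m) r) 0) (hl : l ≠ []) :
    IsComplex (dec m X) := by
  constructor
  · rw [mem_dec_foldr hX]
    obtain ⟨g, hg⟩ := List.exists_mem_of_ne_nil _ hl
    exact ⟨g, hg, empty_subset _⟩
  · intro s hs t ht
    rw [mem_dec_foldr hX] at hs ⊢
    obtain ⟨g, hg, h⟩ := hs
    exact ⟨g, hg, ht.trans h⟩

theorem real_eq {m X : ℕ} {l : List ℕ}
    (hX : X = l.foldr (fun g r => Nat.lor (dcl g m) r) 0) :
    Realization (dec m X) = Re (KF m l) := by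
  ext x
  constructor
  · rintro ⟨h1, h2, σ, hσ, h3⟩
    obtain ⟨g, hg, h4⟩ := (mem_dec_foldr hX).1 hσ
    refine ⟨h1, h2, ?_, g, hg, ?_⟩
    · by_contra hcon
      rw [not_nonempty_iff_eq_empty] at hcon
      have : ∀ v, x v = 0 := by
        intro v
        by_contra hv
        have := RP.mem_sup.2 hv
        rw [hcon] at this
        exact absurd this (notMem_empty _)
      simp [this] at h2
    · intro v hv
      apply h4
      by_contra hcon
      exact RP.mem_sup.1 hv (h3 v hcon)
  · rintro ⟨h1, h2, h3, g, hg, h4⟩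
    refine ⟨h1, h2, RP.sup x, (mem_dec_foldr hX).2 ⟨g, hg, h4⟩, ?_⟩
    intro i hi
    by_contra hcon
    exact hi (RP.mem_sup.2 hcon)

/-- the criterion for a locally constructible complex -/
theorem lc_of {n X : ℕ} {l : List ℕ} (hX : X = l.foldr (fun g r => Nat.lor (dcl g n) r) 0)
    {tab : List (ℕ × ℕ × List ℕ)}
    (hX2 : X = tab.foldr (fun t r => Nat.lor (Nat.pow 2 t.1) r) 1)
    (hl : l.all (fun g => Nat.blt g (2 ^ n) && Nat.beq (pc n g) 4) = true)
    {st : List (ℕ × ℕ × ℕ × ℕ × List ℕ)} {F0 : ℕ} {A G : List ℕ} (hF0 : l.contains F0 = true)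
    (hrun : run n l st [F0] [] A G = true)
    (hA : l.all (fun g => A.contains g) = true) (hA2 : A.all (fun g => l.contains g) = true)
    (htab : tab.all (tabOK n l A G) = true) : LocallyConstructible 3 (dec n X) := by
  rw [List.all_eq_true] at hl hA hA2 htab
  have hb : ∀ {a b : ℕ}, Nat.blt a b = true → a < b := fun h => by rwa [Nat.blt_eq] at h
  have hl1 : ∀ g ∈ l, g < 2 ^ n := fun g hg => hb (Bool.and_eq_true _ _ ▸ hl g hg).1
  have hl2 : ∀ g ∈ l, (ms n g).card = 4 := fun g hg => by
    have := (Bool.and_eq_true _ _ ▸ hl g hg).2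
    rw [card_ms, Nat.eq_of_beq_eq_true this]
  have hfac : ∀ F : Finset (Fin n), F ∈ facets (dec n X) 3 ↔ ∃ g ∈ l, ms n g = F := by
    intro F
    rw [facets, mem_filter, mem_dec_foldr hX]
    constructor
    · rintro ⟨⟨g, hg, hF⟩, hc⟩
      exact ⟨g, hg, (eq_of_subset_of_card_le hF (by rw [hl2 g hg, hc])).symm⟩
    · rintro ⟨g, hg, rfl⟩
      exact ⟨⟨g, hg, Subset.refl _⟩, hl2 g hg⟩
  have hfac2 : facets (dec n X) 3 = toF n A := by
    ext F
    rw [hfac, mem_toF]
    constructor
    · rintro ⟨g, hg, h⟩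
      exact ⟨g, List.contains_iff_mem.1 (hA g hg), h⟩
    · rintro ⟨g, hg, h⟩
      exact ⟨g, List.contains_iff_mem.1 (hA2 g hg), h⟩
  -- the entry of the table
  have hent : ∀ e ∈ dec n X, e.Nonempty → ∃ t ∈ tab, t.1 = cd e ∧ ms n t.1 = e := by
    intro e he hne
    rw [mem_dec, hX2, foldr_one_tb] at he
    rcases he with he | ⟨t, ht, he⟩
    · exfalso
      obtain ⟨i, hi⟩ := hne
      have := (cd_tb_fin e i).2 hi
      rw [he] at this
      simp at this
    · refine ⟨t, ht, he, ?_⟩
      rw [he]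
      ext i
      rw [mem_ms, cd_tb_fin]
  refine ⟨?_, ?_, toF n G, ?_, ?_⟩
  · intro s hs
    obtain ⟨g, hg, h⟩ := (mem_dec_foldr hX).1 hs
    exact ⟨ms n g, (hfac _).2 ⟨g, hg, rfl⟩, h⟩
  · intro r hr hrc
    have hrn : r.Nonempty := by
      rw [← card_pos, hrc]; norm_num
    obtain ⟨t, ht, -, hte⟩ := hent r hr hrn
    have h1 := htab t ht
    unfold tabOK at h1
    simp only [Bool.and_eq_true, Bool.or_eq_true, Bool.not_eq_true', List.all_eq_true,
      List.contains_iff_mem] at h1
    obtain ⟨⟨-, h2⟩, h3⟩ := h1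
    have h4 : t.2.2.length ≤ 1 := by
      rcases h3 with h3 | h3
      · rw [← card_ms, hte, hrc] at h3
        exact absurd h3 (by decide)
      · exact Nat.le_of_ble_eq_true h3
    have h5 : (facets (dec n X) 3).filter (fun F => r ⊆ F) ⊆
        insert (ms n t.2.1) (t.2.2.map (ms n)).toFinset := by
      intro F hF
      rw [mem_filter, hfac] at hF
      obtain ⟨⟨g, hg, rfl⟩, hrF⟩ := hF
      rw [mem_insert, List.mem_toFinset, List.mem_map]
      rcases h2 g hg with (h6 | h6) | h6
      · exfalso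
        have : sb t.1 g = true := by
          rw [sb_iff]
          intro j hj
          have htlt : t.1 < 2 ^ n ∨ 2 ^ n ≤ t.1 := lt_or_ge _ _
          -- use that the mask comes from a set
          obtain ⟨t', ht', htc, -⟩ := hent r hr hrn
          by_cases hjn : j < n
          · have h7 : (⟨j, hjn⟩ : Fin n) ∈ ms n t.1 := mem_ms.2 hj
            rw [hte] at h7
            exact mem_ms.1 (hrF h7)
          · exfalso
            have h8 : sb t.1 t.2.1 = true := by
              have h1 := htab t ht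
              unfold tabOK at h1
              simp only [Bool.and_eq_true] at h1
              exact h1.1.1.1.1.2
            have h9 : t.2.1 ∈ A := by
              have h1 := htab t ht
              unfold tabOK at h1
              simp only [Bool.and_eq_true, List.contains_iff_mem] at h1
              exact h1.1.1.1.1.1
            have h10 := hl1 _ (List.contains_iff_mem.1 (hA2 _ h9))
            have h11 := sb_iff.1 h8 j hj
            rw [Nat.testBit_lt_two_pow (h10.trans_le
              (Nat.pow_le_pow_right (by norm_num) (not_lt.1 hjn)))] at h11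
            exact Bool.false_ne_true h11
        rw [this] at h6
        exact absurd h6 (by decide)
      · left
        rw [Nat.eq_of_beq_eq_true h6]
      · right
        exact ⟨g, h6, rfl⟩
    calc ((facets (dec n X) 3).filter (fun F => r ⊆ F)).card
        ≤ (insert (ms n t.2.1) (t.2.2.map (ms n)).toFinset).card := card_le_card h5
      _ ≤ ((t.2.2.map (ms n)).toFinset).card + 1 := card_insert_le _ _
      _ ≤ (t.2.2.map (ms n)).length + 1 := by
          have := List.toFinset_card_le (t.2.2.map (ms n))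
          omega
      _ ≤ 2 := by rw [List.length_map]; omega
  · rw [hfac2]
    have h0 : Stage (dec n X) 3 (toF n [F0]) (toF n []) := by
      have e1 : toF n [F0] = {ms n F0} := rfl
      have e2 : toF n [] = ∅ := rfl
      rw [e1, e2]
      exact Stage.start _ ((hfac _).2 ⟨F0, List.contains_iff_mem.1 hF0, rfl⟩)
    refine run_spec hl1 (fun g hg => (hfac _).2 ⟨g, hg, rfl⟩) ?_ ?_ hrun h0
    · intro a ha
      rw [List.mem_singleton] at ha
      rw [ha]
      exact List.contains_iff_mem.1 hF0
    · intro g hg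
      simp at hg
  · intro e he hne P hP Q hQ heP heQ
    obtain ⟨t, ht, htc, hte⟩ := hent e he hne
    have h1 := htab t ht
    unfold tabOK at h1
    simp only [Bool.and_eq_true, Bool.or_eq_true, Bool.not_eq_true', List.all_eq_true,
      List.contains_iff_mem] at h1
    obtain ⟨⟨⟨⟨⟨h1, h2⟩, h3⟩, h4⟩, h5⟩, -⟩ := h1
    rw [hfac2]
    have key : ∀ P ∈ facets (dec n X) 3, e ⊆ P →
        SameFace (toF n A) (toF n G) e (ms n t.2.1) P := by
      intro P hP heP
      obtain ⟨g, hg, rfl⟩ := (hfac P).1 hP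
      have hsb : sb t.1 g = true := by
        rw [sb_iff]
        intro j hj
        rw [htc] at hj
        obtain ⟨i, hi, rfl⟩ := (cd_tb _ _).1 hj
        exact mem_ms.1 (heP hi)
      rcases h5 g hg with (h6 | h6) | h6
      · rw [hsb] at h6; exact absurd h6 (by decide)
      · rw [Nat.eq_of_beq_eq_true h6]
        exact Relation.ReflTransGen.refl
      · have := ord_spec (n := n) (A := A) (G := G) (e := t.1) (x := t.2.1) (B := [t.2.1])
          (t := t.2.2) ?_ h3 h4 g h6
        · rw [hte] at this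
          exact this
        · intro p hp
          rw [List.mem_singleton] at hp
          subst hp
          exact ⟨h1, h2, Relation.ReflTransGen.refl⟩
    exact Relation.ReflTransGen.trans (same_symm (key P hP heP)) (key Q hQ heQ)

theorem not_nonEvasive {n : ℕ} {K : Finset (Finset (Fin n))}
    (h : ¬ (∀ S : Finset (Finset (Fin n)) → Prop,
        (∀ v : Fin n, S {∅, {v}}) →
        (∀ L : Finset (Finset (Fin n)), ∀ v : Fin n, {v} ∈ L →
          S (L.filter (fun σ => v ∉ σ)) →
          S (L.filter (fun σ => v ∉ σ ∧ insert v σ ∈ L)) → S L) →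
        S K)) : ¬ NonEvasive K := by
  intro hK
  apply h
  intro S h1 h2
  clear h
  induction hK with
  | vertex v => exact h1 v
  | step L v hv _ _ ih1 ih2 => exact h2 L v hv ih1 ih2

end Pool.Agent.V11201.LC
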