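import Pool.Agent.V11201.LC.Check
import Pool.Agent.V11201.EB.Simpl

set_option autoImplicit false
set_option maxRecDepth 1000000

namespace Pool.Agent.V11201.LC
open Pool.Agent.V11201.EB

/-- the facets of the ball -/
def l1 : List ℕ :=
  [338, 83, 3077, 3332, 305, 579, 282, 582, 1360, 2104, 2074, 2098, 312, 1059, 326, 108, 3840,
  646, 2625, 588, 1680, 51, 1808, 3585, 660, 300, 1061, 1124, 2632, 2152, 1348, 293, 270, 2309,
  1666, 1539]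

/-- the bitset of the ball -/
def X1 : ℕ :=
  0x100000000000000000000000000000000000000000000000000000000000000030000000000000000000000000000000000000000000000000000000000000011000000000000000000000000000000000000000000000000000000000000003300000000000000000000000000000000000000000000000000000000000000010000000000000000000000000000000000000000000001030000000000000103000000000000000000000000000000000000000000000000000000000000003300000000000000000000000000000000000001010000010301050105050505370000000000000000000000000000000000000000000000000000000000010001000000000000000000000000000100050000000000000000000000000001000f00000000000000000000000000000000000000000001001100000000000100110000000000000000000000000001000500000011000100110000003f0001003f000000000000000000000000000000000000000000000000000000000001000100000000000000000000000000110055000000000000115f000000000011115f00000000000000000000000000000000000000000005005501031133050755770000000000000000000000000011005500001111000f115f010f113f051f557f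

theorem X1_eq : X1 = l1.foldr (fun g r => Nat.lor (dcl g 13) r) 0 := by decide +kernel

/-- the flips -/
def fls : List (List ℕ × List ℕ × ℕ × List ℕ) := [
  ([1, 7, 9, 10], [12], 12, [338, 83, 3077, 3332, 305, 579, 282, 582, 1360, 2104, 2074, 2098, 312,
  1059, 326, 108, 3840, 646, 2625, 588, 1680, 51, 1808, 3585, 660, 300, 1061, 1124, 2632, 2152,
  1348, 293, 270, 2309, 1539, 5760, 5634, 5250, 4738]),
  ([2, 11], [0, 8, 10], 0, [338, 83, 305, 579, 282, 582, 1360, 2104, 2074, 2098, 312, 1059, 326,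
  108, 3840, 646, 2625, 588, 1680, 51, 1808, 3585, 660, 300, 1061, 1124, 2632, 2152, 1348, 293,
  270, 1539, 5760, 5634, 5250, 4738, 3329, 1285]),
  ([4, 11], [1, 3, 5], 1, [338, 83, 305, 579, 282, 582, 1360, 312, 1059, 326, 108, 3840, 646,
  2625, 588, 1680, 51, 1808, 3585, 660, 300, 1061, 1124, 2632, 2152, 1348, 293, 270, 1539, 5760,
  5634, 5250, 4738, 3329, 1285, 2090, 58]),
  ([0, 2], [5, 8, 10], 5, [338, 83, 305, 579, 282, 582, 1360, 312, 1059, 326, 108, 3840, 646,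
  2625, 588, 1680, 51, 1808, 3585, 660, 300, 1124, 2632, 2152, 1348, 270, 1539, 5760, 5634, 5250,
  4738, 3329, 2090, 58, 1316, 1313]),
  ([10, 11], [0, 8, 9], 0, [338, 83, 305, 579, 282, 582, 1360, 312, 1059, 326, 108, 646, 2625,
  588, 1680, 51, 1808, 660, 300, 1124, 2632, 2152, 1348, 270, 1539, 5760, 5634, 5250, 4738, 2090,
  58, 1316, 1313, 2817, 1793]),
  ([3, 4], [1, 5, 8], 1, [338, 83, 305, 579, 582, 1360, 1059, 326, 108, 646, 2625, 588, 1680, 51,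
  1808, 660, 300, 1124, 2632, 2152, 1348, 270, 1539, 5760, 5634, 5250, 4738, 2090, 1316, 1313,
  2817, 1793, 306, 298]),
  ([4, 5], [0, 1, 8], 0, [338, 83, 579, 582, 1360, 1059, 326, 108, 646, 2625, 588, 1680, 1808,
  660, 300, 1124, 2632, 2152, 1348, 270, 1539, 5760, 5634, 5250, 4738, 2090, 1316, 1313, 2817,
  1793, 298, 291, 275]),
  ([1, 4], [0, 6, 8], 0, [579, 582, 1360, 1059, 326, 108, 646, 2625, 588, 1680, 1808, 660, 300,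
  1124, 2632, 2152, 1348, 270, 1539, 5760, 5634, 5250, 4738, 2090, 1316, 1313, 2817, 1793, 298,
  291, 337, 323]),
  ([2, 10], [5, 6, 8], 5, [579, 582, 1360, 1059, 326, 108, 646, 2625, 588, 1680, 1808, 660, 300,
  2632, 2152, 270, 1539, 5760, 5634, 5250, 4738, 2090, 1313, 2817, 1793, 298, 291, 337, 323, 1376,
  356]),
  ([2, 5], [3, 6, 8], 3, [579, 582, 1360, 1059, 326, 646, 2625, 588, 1680, 1808, 660, 2632, 2152,
  270, 1539, 5760, 5634, 5250, 4738, 2090, 1313, 2817, 1793, 298, 291, 337, 323, 1376, 360, 332]),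
  ([0, 5], [1, 8, 10], 1, [579, 582, 1360, 326, 646, 2625, 588, 1680, 1808, 660, 2632, 2152, 270,
  1539, 5760, 5634, 5250, 4738, 2090, 2817, 1793, 298, 337, 323, 1376, 360, 332, 1314, 1283]),
  ([0, 10], [1, 8, 9], 1, [579, 582, 1360, 326, 646, 2625, 588, 1680, 1808, 660, 2632, 2152, 270,
  5760, 5634, 5250, 4738, 2090, 2817, 298, 337, 323, 1376, 360, 332, 1314, 1794, 771]),
  ([0, 1], [6, 8, 9], 6, [582, 1360, 326, 646, 2625, 588, 1680, 1808, 660, 2632, 2152, 270, 5760,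
  5634, 5250, 4738, 2090, 2817, 298, 337, 1376, 360, 332, 1314, 1794, 834, 833]),
  ([2, 8], [1, 3, 6], 1, [582, 1360, 646, 2625, 588, 1680, 1808, 660, 2632, 2152, 5760, 5634,
  5250, 4738, 2090, 2817, 298, 337, 1376, 360, 1314, 1794, 834, 833, 330, 78]),
  ([3, 8], [1, 5, 6], 1, [582, 1360, 646, 2625, 588, 1680, 1808, 660, 2632, 2152, 5760, 5634,
  5250, 4738, 2090, 2817, 337, 1376, 1314, 1794, 834, 833, 78, 354, 106]),
  ([5, 8], [1, 6, 10], 1, [582, 1360, 646, 2625, 588, 1680, 1808, 660, 2632, 2152, 5760, 5634,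
  5250, 4738, 2090, 2817, 337, 1794, 834, 833, 78, 106, 1346, 1122]),
  ([1, 8], [6, 9, 10], 6, [582, 1360, 646, 2625, 588, 1680, 1808, 660, 2632, 2152, 5760, 5634,
  5250, 4738, 2090, 2817, 337, 833, 78, 106, 1122, 1856, 1602]),
  ([8, 10], [4, 6, 9], 4, [582, 646, 2625, 588, 1680, 660, 2632, 2152, 5760, 5634, 5250, 4738,
  2090, 2817, 337, 833, 78, 106, 1122, 1602, 1616, 848]),
  ([0, 9], [6, 8, 11], 6, [582, 646, 588, 1680, 660, 2632, 2152, 5760, 5634, 5250, 4738, 2090,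
  337, 78, 106, 1122, 1602, 1616, 848, 2880, 2369]),
  ([2, 6], [1, 3, 9], 1, [646, 1680, 660, 2632, 2152, 5760, 5634, 5250, 4738, 2090, 337, 106,
  1122, 1602, 1616, 848, 2880, 2369, 586, 526]),
  ([7, 9, 10], [4, 12], 4, [646, 660, 2632, 2152, 5634, 5250, 4738, 2090, 337, 106, 1122, 1602,
  1616, 848, 2880, 2369, 586, 526, 5648, 5264, 4752]),
  ([1, 7, 9], [2, 12], 2, [660, 2632, 2152, 5634, 5250, 2090, 337, 106, 1122, 1602, 1616, 848,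
  2880, 2369, 586, 526, 5648, 5264, 4752, 4740, 4614, 4230]),
  ([7, 9], [2, 4, 12], 2, [2632, 2152, 5634, 5250, 2090, 337, 106, 1122, 1602, 1616, 848, 2880,
  2369, 586, 526, 5648, 5264, 4614, 4230, 4628, 4244]),
  ([3, 5], [1, 6, 11], 1, [2632, 5634, 5250, 337, 1122, 1602, 1616, 848, 2880, 2369, 586, 526,
  5648, 5264, 4614, 4230, 4628, 4244, 2146, 2122]),
  ([3, 6], [1, 9, 11], 1, [5634, 5250, 337, 1122, 1602, 1616, 848, 2880, 2369, 526, 5648, 5264,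
  4614, 4230, 4628, 4244, 2146, 2626, 2570]),
  ([1, 9, 10], [6, 12], 6, [5250, 337, 1122, 1616, 848, 2880, 2369, 526, 5648, 5264, 4614, 4230,
  4628, 4244, 2146, 2626, 2570, 5696, 5186, 4674]),
  ([9, 10], [4, 6, 12], 4, [5250, 337, 1122, 848, 2880, 2369, 526, 5264, 4614, 4230, 4628, 4244,
  2146, 2626, 2570, 5186, 4674, 5200, 4688]),
  ([1, 6, 9], [11, 12], 11, [5250, 337, 1122, 848, 2880, 2369, 526, 5264, 4614, 4230, 4628, 4244,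
  2146, 2570, 5186, 5200, 4688, 6720, 6658, 6210]),
  ([4, 6, 9], [8, 12], 8, [5250, 337, 1122, 2880, 2369, 526, 5264, 4614, 4230, 4628, 4244, 2146,
  2570, 5186, 5200, 6720, 6658, 6210, 4928, 4880, 4432]),
  ([6, 9], [8, 11, 12], 8, [5250, 337, 1122, 2369, 526, 5264, 4614, 4230, 4628, 4244, 2146, 2570,
  5186, 5200, 6658, 6210, 4880, 4432, 6912, 6464]),
  ([1, 6, 10], [5, 12], 5, [5250, 337, 2369, 526, 5264, 4614, 4230, 4628, 4244, 2146, 2570, 5200,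
  6658, 6210, 4880, 4432, 6912, 6464, 5216, 5154, 4194]),
  ([1, 6], [5, 11, 12], 5, [5250, 337, 2369, 526, 5264, 4614, 4230, 4628, 4244, 2570, 5200, 6658,
  4880, 4432, 6912, 6464, 5216, 5154, 6240, 6178]),
  ([1, 9, 11], [3, 12], 3, [5250, 337, 2369, 526, 5264, 4614, 4230, 4628, 4244, 5200, 4880, 4432,
  6912, 6464, 5216, 5154, 6240, 6178, 6664, 6154, 4618]),
  ([1, 9], [2, 3, 12], 2, [5250, 337, 2369, 5264, 4230, 4628, 4244, 5200, 4880, 4432, 6912, 6464,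
  5216, 5154, 6240, 6178, 6664, 6154, 4620, 4110]),
  ([4, 6, 8], [0, 12], 0, [5250, 2369, 5264, 4230, 4628, 4244, 5200, 4880, 6912, 6464, 5216, 5154,
  6240, 6178, 6664, 6154, 4620, 4110, 4417, 4369, 4177]),
  ([6, 8], [0, 11, 12], 0, [5250, 5264, 4230, 4628, 4244, 5200, 4880, 6912, 5216, 5154, 6240,
  6178, 6664, 6154, 4620, 4110, 4369, 4177, 6401, 6209]),
  ([0, 8], [4, 11], 4, [5250, 5264, 4230, 4628, 4244, 5200, 4880, 6912, 5216, 5154, 6240, 6178,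
  6664, 6154, 4620, 4110, 4177, 6209, 6416, 6161]),
  ([8], [4, 9, 11], 4, [5250, 5264, 4230, 4628, 4244, 5200, 5216, 5154, 6240, 6178, 6664, 6154,
  4620, 4110, 4177, 6209, 6161, 6672]),
  ([0], [4, 6, 11], 4, [5250, 5264, 4230, 4628, 4244, 5200, 5216, 5154, 6240, 6178, 6664, 6154,
  4620, 4110, 6672, 6224]),
  ([5, 6], [10, 11], 10, [5250, 5264, 4230, 4628, 4244, 5200, 5154, 6178, 6664, 6154, 4620, 4110,
  6672, 6224, 7232, 7200]),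
  ([5], [1, 10, 11], 1, [5250, 5264, 4230, 4628, 4244, 5200, 6664, 6154, 4620, 4110, 6672, 6224,
  7232, 7170]),
  ([6], [4, 10, 11], 4, [5250, 5264, 4230, 4628, 4244, 6664, 6154, 4620, 4110, 6672, 7170, 7184]),
  ([10, 11], [1, 4], 1, [5250, 5264, 4230, 4628, 4244, 6664, 6154, 4620, 4110, 6672, 6162, 5138]),
  ([10], [1, 4, 7], 1, [4230, 4628, 4244, 6664, 6154, 4620, 4110, 6672, 6162, 4242]),
  ([7], [1, 2, 4], 1, [4628, 6664, 6154, 4620, 4110, 6672, 6162, 4118]),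
  ([1, 3], [2, 11], 2, [4628, 6664, 4620, 6672, 6162, 4118, 6156, 6150]),
  ([3], [2, 9, 11], 2, [4628, 6672, 6162, 4118, 6150, 6660]),
  ([1], [2, 4, 11], 2, [4628, 6672, 6660, 6164]),
  ([12], [2, 4, 9, 11], 2, [2580])]

theorem fls_ok : chain 13 fls l1 [2580] = true := by decide +kernel

/-- the facets in the order of the construction -/
def lA : List ℕ :=
  [2632, 1808, 660, 588, 1680, 108, 1360, 2152, 582, 2104, 646, 3840, 3332, 1124, 579, 1348, 3077,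
  83, 2625, 1666, 326, 270, 3585, 1539, 2309, 293, 338, 300, 282, 312, 1061, 2074, 305, 2098,
  1059, 51]

/-- the glued triangles -/
def lG : List ℕ :=
  [2120, 1552, 584, 3584, 580, 1792, 100, 1344, 1060, 3076, 2308, 2053, 70, 82, 104, 578, 262,
  266, 280, 577, 515, 644, 37, 56, 3073, 292, 2096, 2624, 1296, 656, 76, 1664, 44, 336, 2088, 518,
  2072, 642, 3328, 1284, 1092, 67, 324, 1029, 19, 2561, 1538, 322, 268, 1537, 1027, 261, 289, 274,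
  296, 26, 304, 1057, 2066, 49, 50, 35]

/-- the construction -/
def sts : List (ℕ × ℕ × ℕ × ℕ × List ℕ) := [
  (0, 51, 1059, 0, []), (0, 51, 2098, 0, []), (0, 51, 305, 0, []), (0, 2098, 2074, 0, []), (0,
  1059, 1061, 0, []), (0, 305, 312, 0, []), (0, 2074, 282, 0, []), (0, 312, 300, 0, []), (0, 282,
  338, 0, []), (0, 305, 293, 0, []), (0, 293, 2309, 0, []), (0, 1059, 1539, 0, []), (0, 1539,
  3585, 0, []), (0, 300, 270, 0, []), (0, 338, 326, 0, []), (0, 1539, 1666, 0, []), (0, 3585,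
  2625, 0, []), (0, 51, 83, 0, []), (0, 1061, 3077, 0, []), (0, 326, 1348, 0, []), (0, 83, 579, 0,
  []), (0, 1348, 1124, 0, []), (0, 1348, 3332, 0, []), (0, 3332, 3840, 0, []), (0, 1666, 646, 0,
  []), (0, 2074, 2104, 0, []), (0, 646, 582, 0, []), (0, 2104, 2152, 0, []), (0, 338, 1360, 0,
  []), (0, 300, 108, 0, []), (0, 1666, 1680, 0, []), (0, 108, 588, 0, []), (0, 1680, 660, 0, []),
  (0, 1360, 1808, 0, []), (0, 2625, 2632, 0, []), (1, 2104, 2098, 2064, [2074, 2098]), (1, 300,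
  293, 288, [312, 305, 293]), (1, 3077, 3585, 1025, [1061, 1059, 1539, 3585]), (1, 2104, 312, 48,
  [2098, 51, 305, 312]), (1, 1061, 293, 33, [1059, 51, 305, 293]), (1, 646, 660, 640, [1666, 1680,
  660]), (1, 579, 1539, 3, [83, 51, 1059, 1539]), (1, 579, 2625, 513, [1539, 3585, 2625]), (1,
  282, 312, 24, [2074, 2104, 312]), (1, 282, 270, 264, [312, 300, 270]), (1, 326, 270, 258, [338,
  282, 270]), (1, 579, 582, 514, [1539, 1666, 646, 582]), (1, 108, 2152, 40, [300, 312, 2104,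
  2152]), (1, 338, 83, 18, [282, 2074, 2098, 51, 83]), (1, 582, 326, 66, [579, 83, 338, 326]), (1,
  3077, 2309, 5, [1061, 293, 2309]), (1, 3332, 2309, 260, [1348, 326, 270, 300, 293, 2309]), (1,
  3077, 3332, 2052, [2309, 3332]), (1, 1061, 1124, 1028, [3077, 3332, 1348, 1124]), (1, 1360,
  1348, 320, [338, 326, 1348]), (1, 108, 1124, 36, [300, 293, 1061, 1124]), (1, 3840, 1808, 1280,
  [3332, 1348, 1360, 1808]), (1, 582, 588, 68, [326, 1348, 1124, 108, 588]), (1, 3840, 3585, 3072,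
  [3332, 3077, 3585]), (1, 588, 2632, 576, [582, 579, 2625, 2632]), (1, 1680, 1808, 1536, [1666,
  1539, 3585, 3840, 1808]), (1, 2632, 2152, 72, [588, 108, 2152])]

/-- the table of faces -/
def tab : List (ℕ × ℕ × List ℕ) := [
  (1, 83, [579, 2625, 51, 305, 1059, 3585, 3077, 1061, 293, 2309, 1539]), (2, 338, [83, 579, 282,
  582, 2074, 2098, 326, 646, 51, 1059, 270, 1666, 1539]), (3, 83, [579, 51, 1059, 1539]), (4,
  3077, [3332, 1061, 1124, 108, 588, 582, 326, 646, 660, 300, 1348, 293, 270, 2309]), (5, 3077,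
  [1061, 293, 2309]), (6, 582, [326, 646, 270]), (8, 282, [2074, 2104, 312, 300, 108, 588, 2632,
  2152, 270]), (10, 282, [2074, 270]), (12, 108, [588, 300, 270]), (14, 270, []), (16, 338, [83,
  282, 1360, 2074, 2104, 2098, 312, 305, 51, 1808, 1680, 660]), (17, 83, [51, 305]), (18, 338,
  [83, 282, 2074, 2098, 51]), (19, 83, [51]), (20, 660, []), (24, 282, [2074, 2104, 312]), (26,
  282, [2074]), (32, 305, [312, 2104, 2098, 51, 1059, 300, 108, 1061, 1124, 2152, 293]), (33, 305,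
  [51, 1059, 1061, 293]), (34, 2098, [51, 1059]), (35, 1059, [51]), (36, 108, [300, 1124, 1061,
  293]), (37, 1061, [293]), (40, 2104, [312, 300, 108, 2152]), (44, 108, [300]), (48, 305, [312,
  2104, 2098, 51]), (49, 305, [51]), (50, 2098, [51]), (51, 51, []), (56, 2104, [312]), (64, 338,
  [83, 579, 582, 1360, 326, 2625, 588, 108, 1124, 2632, 2152, 1348]), (65, 83, [579, 2625]), (66,
  338, [83, 579, 582, 326]), (67, 83, [579]), (68, 582, [326, 588, 108, 1124, 1348]), (70, 582,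
  [326]), (72, 108, [588, 2632, 2152]), (76, 108, [588]), (80, 338, [83, 1360]), (81, 83, []),
  (82, 338, [83]), (83, 83, []), (96, 108, [1124, 2152]), (100, 108, [1124]), (104, 108, [2152]),
  (108, 108, []), (128, 646, [660, 1680, 1666]), (130, 646, [1666]), (132, 646, [660]), (134, 646,
  []), (144, 1680, [660]), (148, 660, []), (256, 338, [282, 1360, 312, 305, 326, 1808, 3840, 3332,
  300, 1348, 293, 270, 2309]), (257, 305, [293, 2309]), (258, 338, [282, 326, 270]), (260, 3332,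
  [1348, 326, 270, 300, 293, 2309]), (261, 293, [2309]), (262, 326, [270]), (264, 282, [312, 300,
  270]), (266, 282, [270]), (268, 300, [270]), (270, 270, []), (272, 338, [282, 1360, 312, 305,
  1808]), (273, 305, []), (274, 338, [282]), (280, 282, [312]), (282, 282, []), (288, 305, [312,
  300, 293]), (289, 305, [293]), (292, 300, [293]), (293, 293, []), (296, 312, [300]), (300, 300,
  []), (304, 305, [312]), (305, 305, []), (312, 312, []), (320, 338, [1360, 326, 1348]), (322,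
  338, [326]), (324, 326, [1348]), (326, 326, []), (336, 338, [1360]), (338, 338, []), (512, 579,
  [582, 646, 2625, 588, 3585, 3840, 1808, 1680, 660, 2632, 1666, 1539]), (513, 579, [2625, 3585,
  1539]), (514, 579, [582, 646, 1666, 1539]), (515, 579, [1539]), (516, 582, [646, 588, 660]),
  (518, 582, [646]), (520, 588, [2632]), (524, 588, []), (528, 1680, [1808, 660]), (532, 660, []),
  (576, 579, [582, 2625, 588, 2632]), (577, 579, [2625]), (578, 579, [582]), (579, 579, []), (580,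
  582, [588]), (582, 582, []), (584, 588, [2632]), (588, 588, []), (640, 646, [660, 1680, 1666]),
  (642, 646, [1666]), (644, 646, [660]), (646, 646, []), (656, 1680, [660]), (660, 660, []), (768,
  3840, [1808]), (784, 1808, []), (1024, 3077, [3332, 3840, 1808, 1360, 1680, 3585, 1061, 1059,
  1124, 1348, 1666, 1539]), (1025, 3077, [3585, 1061, 1059, 1539]), (1026, 1059, [1539, 1666]),
  (1027, 1059, [1539]), (1028, 3077, [3332, 1061, 1124, 1348]), (1029, 3077, [1061]), (1040, 1360,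
  [1808, 1680]), (1056, 1059, [1061, 1124]), (1057, 1059, [1061]), (1058, 1059, []), (1059, 1059,
  []), (1060, 1061, [1124]), (1061, 1061, []), (1088, 1360, [1348, 1124]), (1092, 1124, [1348]),
  (1104, 1360, []), (1120, 1124, []), (1124, 1124, []), (1152, 1680, [1666]), (1154, 1666, []),
  (1168, 1680, []), (1280, 3332, [3840, 1808, 1360, 1348]), (1284, 3332, [1348]), (1296, 1360,
  [1808]), (1344, 1360, [1348]), (1348, 1348, []), (1360, 1360, []), (1536, 3840, [1808, 1680,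
  3585, 1666, 1539]), (1537, 3585, [1539]), (1538, 1666, [1539]), (1539, 1539, []), (1552, 1680,
  [1808]), (1664, 1680, [1666]), (1666, 1666, []), (1680, 1680, []), (1792, 3840, [1808]), (1808,
  1808, []), (2048, 3077, [3332, 3840, 3585, 2625, 2632, 2152, 2104, 2074, 2098, 2309]), (2049,
  3077, [3585, 2625, 2309]), (2050, 2074, [2098]), (2052, 3077, [3332, 2309]), (2053, 3077,
  [2309]), (2056, 2104, [2074, 2152, 2632]), (2058, 2074, []), (2064, 2104, [2074, 2098]), (2066,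
  2074, [2098]), (2072, 2104, [2074]), (2074, 2074, []), (2080, 2104, [2098, 2152]), (2082, 2098,
  []), (2088, 2104, [2152]), (2096, 2104, [2098]), (2098, 2098, []), (2104, 2104, []), (2112,
  2625, [2632, 2152]), (2113, 2625, []), (2120, 2632, [2152]), (2144, 2152, []), (2152, 2152, []),
  (2304, 3332, [3840, 2309]), (2305, 2309, []), (2308, 3332, [2309]), (2309, 2309, []), (2560,
  3840, [3585, 2625, 2632]), (2561, 2625, [3585]), (2568, 2632, []), (2624, 2625, [2632]), (2625,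
  2625, []), (2632, 2632, []), (2816, 3840, []), (3072, 3077, [3332, 3840, 3585]), (3073, 3077,
  [3585]), (3076, 3077, [3332]), (3077, 3077, []), (3328, 3332, [3840]), (3332, 3332, []), (3584,
  3840, [3585]), (3585, 3585, []), (3840, 3840, [])]

theorem X1_tab : X1 = tab.foldr (fun t r => Nat.lor (Nat.pow 2 t.1) r) 1 := by decide +kernel

theorem l1_ok : l1.all (fun g => Nat.blt g (2 ^ 13) && Nat.beq (pc 13 g) 4) = true := by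
  decide +kernel

theorem sts_ok : run 13 l1 sts [51] [] lA lG = true := by decide +kernel

theorem root_ok : l1.contains 51 = true := by decide +kernel

theorem lA_ok : l1.all (fun g => lA.contains g) = true := by decide +kernel

theorem lA_ok2 : lA.all (fun g => l1.contains g) = true := by decide +kernel

theorem tab_ok : tab.all (tabOK 13 l1 lA lG) = true := by decide +kernel

/-- the table of the recursion -/
def rws : List ((List ℕ × List ℕ) × List (ℕ × ℕ)) := [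
  (([], []), [(3, 1), (3, 66), (3, 140), (3, 163), (3, 201), (3, 229), (3, 272), (3, 283), (3,
  288), (3, 300), (3, 302), (3, 303), (0, 0)]),
  (([], [0]), [(0, 0), (0, 0), (0, 0), (3, 2), (3, 19), (0, 0), (3, 33), (3, 45), (3, 55), (0, 0),
  (0, 0), (3, 64), (0, 0)]),
  (([], [0, 3]), [(0, 0), (0, 0), (0, 0), (0, 0), (0, 0), (2, 3), (0, 0), (3, 4), (0, 0), (0, 0),
  (0, 0), (3, 15), (0, 0)]),
  (([5], [0, 3]), [(0, 0), (0, 0), (0, 0), (0, 0), (0, 0), (0, 0), (0, 0), (0, 0), (0, 0), (0, 0),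
  (0, 0), (0, 0), (0, 0)]),
  (([], [0, 3, 7]), [(0, 0), (0, 0), (0, 0), (0, 0), (0, 0), (2, 3), (0, 0), (0, 0), (0, 0), (2,
  5), (0, 0), (3, 8), (0, 0)]),
  (([9], [0, 3, 7]), [(0, 0), (0, 0), (0, 0), (0, 0), (0, 0), (0, 0), (0, 0), (0, 0), (3, 6), (0,
  0), (0, 0), (0, 0), (0, 0)]),
  (([9], [0, 3, 7, 8]), [(0, 0), (0, 0), (0, 0), (0, 0), (0, 0), (0, 0), (0, 0), (0, 0), (0, 0),
  (0, 0), (2, 7), (0, 0), (0, 0)]),
  (([9, 10], [0, 3, 7, 8]), [(0, 0), (0, 0), (0, 0), (0, 0), (0, 0), (0, 0), (0, 0), (0, 0), (0,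
  0), (0, 0), (0, 0), (0, 0), (0, 0)]),
  (([], [0, 3, 7, 11]), [(0, 0), (0, 0), (0, 0), (0, 0), (0, 0), (0, 0), (3, 9), (0, 0), (0, 0),
  (0, 0), (0, 0), (0, 0), (0, 0)]),
  (([], [0, 3, 7, 11, 6]), [(0, 0), (0, 0), (0, 0), (0, 0), (0, 0), (0, 0), (0, 0), (0, 0), (2,
  10), (0, 0), (0, 0), (0, 0), (0, 0)]),
  (([8], [0, 3, 7, 11, 6]), [(0, 0), (0, 0), (2, 11), (0, 0), (2, 12), (0, 0), (0, 0), (0, 0), (0,
  0), (3, 14), (0, 0), (0, 0), (0, 0)]),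
  (([8, 2], [0, 3, 7, 11, 6]), [(0, 0), (0, 0), (0, 0), (0, 0), (0, 0), (0, 0), (0, 0), (0, 0),
  (0, 0), (0, 0), (0, 0), (0, 0), (0, 0)]),
  (([8, 4], [0, 3, 7, 11, 6]), [(0, 0), (0, 0), (0, 0), (0, 0), (0, 0), (0, 0), (0, 0), (0, 0),
  (0, 0), (3, 11), (3, 13), (0, 0), (0, 0)]),
  (([8, 4], [0, 3, 7, 11, 6, 10]), [(0, 0), (0, 0), (0, 0), (0, 0), (0, 0), (0, 0), (0, 0), (0,
  0), (0, 0), (0, 0), (0, 0), (0, 0), (0, 0)]),
  (([8], [0, 3, 7, 11, 6, 9]), [(0, 0), (0, 0), (2, 11), (0, 0), (2, 11), (0, 0), (0, 0), (0, 0),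
  (0, 0), (0, 0), (0, 0), (0, 0), (0, 0)]),
  (([], [0, 3, 11]), [(0, 0), (0, 0), (0, 0), (0, 0), (0, 0), (0, 0), (3, 16), (3, 8), (0, 0), (3,
  18), (0, 0), (0, 0), (0, 0)]),
  (([], [0, 3, 11, 6]), [(0, 0), (0, 0), (0, 0), (0, 0), (0, 0), (0, 0), (0, 0), (3, 9), (2, 10),
  (3, 17), (0, 0), (0, 0), (0, 0)]),
  (([], [0, 3, 11, 6, 9]), [(0, 0), (0, 0), (0, 0), (0, 0), (0, 0), (0, 0), (0, 0), (0, 0), (2,
  14), (0, 0), (0, 0), (0, 0), (0, 0)]),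
  (([], [0, 3, 11, 9]), [(0, 0), (0, 0), (0, 0), (0, 0), (0, 0), (0, 0), (3, 17), (0, 0), (0, 0),
  (0, 0), (0, 0), (0, 0), (0, 0)]),
  (([], [0, 4]), [(0, 0), (0, 0), (0, 0), (0, 0), (0, 0), (0, 0), (3, 20), (3, 30), (3, 32), (0,
  0), (0, 0), (0, 0), (0, 0)]),
  (([], [0, 4, 6]), [(0, 0), (0, 0), (2, 21), (2, 25), (0, 0), (0, 0), (0, 0), (3, 27), (3, 29),
  (0, 0), (0, 0), (0, 0), (0, 0)]),
  (([2], [0, 4, 6]), [(0, 0), (0, 0), (0, 0), (0, 0), (0, 0), (0, 0), (0, 0), (3, 22), (0, 0), (0,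
  0), (0, 0), (3, 24), (0, 0)]),
  (([2], [0, 4, 6, 7]), [(0, 0), (0, 0), (0, 0), (0, 0), (0, 0), (0, 0), (0, 0), (0, 0), (0, 0),
  (0, 0), (0, 0), (3, 23), (0, 0)]),
  (([2], [0, 4, 6, 7, 11]), [(0, 0), (0, 0), (0, 0), (0, 0), (0, 0), (0, 0), (0, 0), (0, 0), (0,
  0), (0, 0), (0, 0), (0, 0), (0, 0)]),
  (([2], [0, 4, 6, 11]), [(0, 0), (0, 0), (0, 0), (0, 0), (0, 0), (0, 0), (0, 0), (3, 23), (0, 0),
  (0, 0), (0, 0), (0, 0), (0, 0)]),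
  (([3], [0, 4, 6]), [(0, 0), (0, 0), (0, 0), (0, 0), (0, 0), (0, 0), (0, 0), (0, 0), (3, 26), (0,
  0), (0, 0), (2, 13), (0, 0)]),
  (([3], [0, 4, 6, 8]), [(0, 0), (0, 0), (2, 13), (0, 0), (0, 0), (0, 0), (0, 0), (0, 0), (0, 0),
  (0, 0), (0, 0), (2, 13), (0, 0)]),
  (([], [0, 4, 6, 7]), [(0, 0), (0, 0), (2, 22), (2, 25), (0, 0), (0, 0), (0, 0), (0, 0), (3, 28),
  (0, 0), (0, 0), (0, 0), (0, 0)]),
  (([], [0, 4, 6, 7, 8]), [(0, 0), (0, 0), (0, 0), (2, 26), (0, 0), (0, 0), (0, 0), (0, 0), (0,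
  0), (0, 0), (0, 0), (0, 0), (0, 0)]),
  (([], [0, 4, 6, 8]), [(0, 0), (0, 0), (0, 0), (2, 26), (0, 0), (0, 0), (0, 0), (3, 28), (0, 0),
  (0, 0), (0, 0), (0, 0), (0, 0)]),
  (([], [0, 4, 7]), [(0, 0), (0, 0), (0, 0), (0, 0), (0, 0), (0, 0), (3, 27), (0, 0), (3, 31), (0,
  0), (0, 0), (0, 0), (0, 0)]),
  (([], [0, 4, 7, 8]), [(0, 0), (0, 0), (0, 0), (0, 0), (0, 0), (0, 0), (3, 28), (0, 0), (0, 0),
  (0, 0), (0, 0), (0, 0), (0, 0)]),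
  (([], [0, 4, 8]), [(0, 0), (0, 0), (0, 0), (0, 0), (0, 0), (0, 0), (3, 29), (3, 31), (0, 0), (0,
  0), (0, 0), (0, 0), (0, 0)]),
  (([], [0, 6]), [(0, 0), (0, 0), (2, 34), (0, 0), (3, 20), (0, 0), (0, 0), (3, 39), (0, 0), (0,
  0), (0, 0), (3, 43), (0, 0)]),
  (([2], [0, 6]), [(0, 0), (0, 0), (0, 0), (0, 0), (3, 21), (0, 0), (0, 0), (3, 35), (0, 0), (0,
  0), (0, 0), (3, 38), (0, 0)]),
  (([2], [0, 6, 7]), [(0, 0), (0, 0), (0, 0), (0, 0), (3, 22), (0, 0), (0, 0), (0, 0), (0, 0), (2,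
  36), (0, 0), (3, 37), (0, 0)]),
  (([2, 9], [0, 6, 7]), [(0, 0), (0, 0), (0, 0), (0, 0), (0, 0), (0, 0), (0, 0), (0, 0), (0, 0),
  (0, 0), (0, 0), (0, 0), (0, 0)]),
  (([2], [0, 6, 7, 11]), [(0, 0), (0, 0), (0, 0), (0, 0), (3, 23), (0, 0), (0, 0), (0, 0), (0, 0),
  (2, 36), (0, 0), (0, 0), (0, 0)]),
  (([2], [0, 6, 11]), [(0, 0), (0, 0), (0, 0), (0, 0), (3, 24), (0, 0), (0, 0), (3, 37), (0, 0),
  (0, 0), (0, 0), (0, 0), (0, 0)]),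
  (([], [0, 6, 7]), [(0, 0), (0, 0), (2, 35), (0, 0), (3, 27), (0, 0), (0, 0), (0, 0), (0, 0), (2,
  40), (0, 0), (3, 42), (0, 0)]),
  (([9], [0, 6, 7]), [(0, 0), (0, 0), (2, 36), (0, 0), (0, 0), (0, 0), (0, 0), (0, 0), (3, 41),
  (0, 0), (0, 0), (0, 0), (0, 0)]),
  (([9], [0, 6, 7, 8]), [(0, 0), (0, 0), (2, 36), (0, 0), (0, 0), (0, 0), (0, 0), (0, 0), (0, 0),
  (0, 0), (2, 7), (0, 0), (0, 0)]),
  (([], [0, 6, 7, 11]), [(0, 0), (0, 0), (2, 37), (3, 9), (0, 0), (0, 0), (0, 0), (0, 0), (0, 0),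
  (0, 0), (0, 0), (0, 0), (0, 0)]),
  (([], [0, 6, 11]), [(0, 0), (0, 0), (2, 38), (3, 16), (0, 0), (0, 0), (0, 0), (3, 42), (0, 0),
  (3, 44), (0, 0), (0, 0), (0, 0)]),
  (([], [0, 6, 11, 9]), [(0, 0), (0, 0), (0, 0), (3, 17), (0, 0), (0, 0), (0, 0), (0, 0), (0, 0),
  (0, 0), (0, 0), (0, 0), (0, 0)]),
  (([], [0, 7]), [(0, 0), (0, 0), (0, 0), (3, 4), (3, 30), (0, 0), (3, 39), (0, 0), (3, 46), (2,
  53), (0, 0), (3, 54), (0, 0)]),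
  (([], [0, 7, 8]), [(0, 0), (2, 47), (0, 0), (0, 0), (3, 31), (0, 0), (0, 0), (0, 0), (0, 0), (2,
  50), (2, 51), (3, 52), (0, 0)]),
  (([1], [0, 7, 8]), [(0, 0), (0, 0), (0, 0), (0, 0), (0, 0), (0, 0), (0, 0), (0, 0), (0, 0), (0,
  0), (0, 0), (3, 48), (0, 0)]),
  (([1], [0, 7, 8, 11]), [(0, 0), (0, 0), (0, 0), (0, 0), (2, 49), (0, 0), (0, 0), (0, 0), (0, 0),
  (0, 0), (0, 0), (0, 0), (0, 0)]),
  (([1, 4], [0, 7, 8, 11]), [(0, 0), (0, 0), (0, 0), (0, 0), (0, 0), (0, 0), (0, 0), (0, 0), (0,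
  0), (0, 0), (0, 0), (0, 0), (0, 0)]),
  (([9], [0, 7, 8]), [(0, 0), (0, 0), (0, 0), (3, 6), (0, 0), (0, 0), (3, 41), (0, 0), (0, 0), (0,
  0), (2, 7), (0, 0), (0, 0)]),
  (([10], [0, 7, 8]), [(0, 0), (0, 0), (0, 0), (0, 0), (0, 0), (0, 0), (0, 0), (0, 0), (0, 0), (2,
  7), (0, 0), (0, 0), (0, 0)]),
  (([], [0, 7, 8, 11]), [(0, 0), (2, 48), (0, 0), (0, 0), (0, 0), (0, 0), (0, 0), (0, 0), (0, 0),
  (0, 0), (0, 0), (0, 0), (0, 0)]),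
  (([9], [0, 7]), [(0, 0), (0, 0), (0, 0), (3, 5), (0, 0), (0, 0), (3, 40), (0, 0), (3, 50), (0,
  0), (0, 0), (0, 0), (0, 0)]),
  (([], [0, 7, 11]), [(0, 0), (0, 0), (0, 0), (3, 8), (0, 0), (0, 0), (3, 42), (0, 0), (3, 52),
  (0, 0), (0, 0), (0, 0), (0, 0)]),
  (([], [0, 8]), [(0, 0), (2, 56), (0, 0), (0, 0), (3, 32), (0, 0), (0, 0), (3, 46), (0, 0), (0,
  0), (2, 61), (3, 62), (0, 0)]),
  (([1], [0, 8]), [(0, 0), (0, 0), (0, 0), (0, 0), (0, 0), (0, 0), (0, 0), (3, 47), (0, 0), (3,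
  57), (0, 0), (3, 60), (0, 0)]),
  (([1], [0, 8, 9]), [(0, 0), (0, 0), (2, 58), (0, 0), (0, 0), (0, 0), (0, 0), (0, 0), (0, 0), (0,
  0), (0, 0), (3, 59), (0, 0)]),
  (([1, 2], [0, 8, 9]), [(0, 0), (0, 0), (0, 0), (0, 0), (0, 0), (0, 0), (0, 0), (0, 0), (0, 0),
  (0, 0), (0, 0), (0, 0), (0, 0)]),
  (([1], [0, 8, 9, 11]), [(0, 0), (0, 0), (2, 58), (0, 0), (2, 49), (0, 0), (0, 0), (0, 0), (0,
  0), (0, 0), (0, 0), (0, 0), (0, 0)]),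
  (([1], [0, 8, 11]), [(0, 0), (0, 0), (0, 0), (0, 0), (2, 49), (0, 0), (0, 0), (3, 48), (0, 0),
  (3, 59), (0, 0), (0, 0), (0, 0)]),
  (([10], [0, 8]), [(0, 0), (0, 0), (0, 0), (0, 0), (0, 0), (0, 0), (0, 0), (3, 51), (0, 0), (0,
  0), (0, 0), (0, 0), (0, 0)]),
  (([], [0, 8, 11]), [(0, 0), (2, 60), (0, 0), (0, 0), (0, 0), (0, 0), (0, 0), (3, 52), (0, 0),
  (3, 63), (0, 0), (0, 0), (0, 0)]),
  (([], [0, 8, 11, 9]), [(0, 0), (2, 59), (0, 0), (0, 0), (0, 0), (0, 0), (0, 0), (0, 0), (0, 0),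
  (0, 0), (0, 0), (0, 0), (0, 0)]),
  (([], [0, 11]), [(0, 0), (0, 0), (0, 0), (3, 15), (0, 0), (0, 0), (3, 43), (3, 54), (3, 62), (3,
  65), (0, 0), (0, 0), (0, 0)]),
  (([], [0, 11, 9]), [(0, 0), (0, 0), (0, 0), (3, 18), (0, 0), (0, 0), (3, 44), (0, 0), (3, 63),
  (0, 0), (0, 0), (0, 0), (0, 0)]),
  (([], [1]), [(0, 0), (0, 0), (3, 67), (3, 78), (0, 0), (3, 97), (0, 0), (3, 128), (0, 0), (0,
  0), (3, 138), (3, 139), (0, 0)]),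
  (([], [1, 2]), [(2, 68), (0, 0), (0, 0), (3, 71), (0, 0), (0, 0), (0, 0), (3, 75), (0, 0), (3,
  77), (0, 0), (0, 0), (0, 0)]),
  (([0], [1, 2]), [(0, 0), (0, 0), (0, 0), (0, 0), (0, 0), (0, 0), (0, 0), (0, 0), (0, 0), (3,
  69), (0, 0), (0, 0), (0, 0)]),
  (([0], [1, 2, 9]), [(0, 0), (0, 0), (0, 0), (0, 0), (0, 0), (0, 0), (0, 0), (0, 0), (0, 0), (0,
  0), (0, 0), (2, 70), (0, 0)]),
  (([0, 11], [1, 2, 9]), [(0, 0), (0, 0), (0, 0), (0, 0), (0, 0), (0, 0), (0, 0), (0, 0), (0, 0),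
  (0, 0), (0, 0), (0, 0), (0, 0)]),
  (([], [1, 2, 3]), [(2, 68), (0, 0), (0, 0), (0, 0), (0, 0), (0, 0), (0, 0), (3, 72), (0, 0), (3,
  74), (0, 0), (0, 0), (0, 0)]),
  (([], [1, 2, 3, 7]), [(2, 68), (0, 0), (0, 0), (0, 0), (0, 0), (0, 0), (0, 0), (0, 0), (0, 0),
  (3, 73), (0, 0), (0, 0), (0, 0)]),
  (([], [1, 2, 3, 7, 9]), [(2, 69), (0, 0), (0, 0), (0, 0), (0, 0), (0, 0), (0, 0), (0, 0), (0,
  0), (0, 0), (0, 0), (0, 0), (0, 0)]),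
  (([], [1, 2, 3, 9]), [(2, 69), (0, 0), (0, 0), (0, 0), (0, 0), (0, 0), (0, 0), (3, 73), (0, 0),
  (0, 0), (0, 0), (0, 0), (0, 0)]),
  (([], [1, 2, 7]), [(2, 68), (0, 0), (0, 0), (3, 72), (0, 0), (0, 0), (0, 0), (0, 0), (0, 0), (3,
  76), (0, 0), (0, 0), (0, 0)]),
  (([], [1, 2, 7, 9]), [(2, 69), (0, 0), (0, 0), (3, 73), (0, 0), (0, 0), (0, 0), (0, 0), (0, 0),
  (0, 0), (0, 0), (0, 0), (0, 0)]),
  (([], [1, 2, 9]), [(2, 69), (0, 0), (0, 0), (3, 74), (0, 0), (0, 0), (0, 0), (3, 76), (0, 0),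
  (0, 0), (0, 0), (0, 0), (0, 0)]),
  (([], [1, 3]), [(0, 0), (0, 0), (3, 71), (0, 0), (0, 0), (0, 0), (2, 79), (3, 83), (0, 0), (0,
  0), (3, 94), (3, 95), (0, 0)]),
  (([6], [1, 3]), [(0, 0), (0, 0), (0, 0), (0, 0), (0, 0), (0, 0), (0, 0), (0, 0), (3, 80), (0,
  0), (3, 81), (0, 0), (0, 0)]),
  (([6], [1, 3, 8]), [(0, 0), (0, 0), (0, 0), (0, 0), (0, 0), (0, 0), (0, 0), (0, 0), (0, 0), (0,
  0), (0, 0), (0, 0), (0, 0)]),
  (([6], [1, 3, 10]), [(0, 0), (0, 0), (2, 82), (0, 0), (0, 0), (0, 0), (0, 0), (0, 0), (0, 0),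
  (0, 0), (0, 0), (0, 0), (0, 0)]),
  (([6, 2], [1, 3, 10]), [(0, 0), (0, 0), (0, 0), (0, 0), (0, 0), (0, 0), (0, 0), (0, 0), (0, 0),
  (0, 0), (0, 0), (0, 0), (0, 0)]),
  (([], [1, 3, 7]), [(0, 0), (0, 0), (3, 72), (0, 0), (0, 0), (0, 0), (2, 79), (0, 0), (0, 0), (0,
  0), (3, 84), (3, 92), (0, 0)]),
  (([], [1, 3, 7, 10]), [(0, 0), (0, 0), (0, 0), (0, 0), (0, 0), (0, 0), (2, 81), (0, 0), (2, 85),
  (0, 0), (0, 0), (0, 0), (0, 0)]),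
  (([8], [1, 3, 7, 10]), [(3, 86), (0, 0), (0, 0), (0, 0), (2, 89), (3, 91), (0, 0), (0, 0), (0,
  0), (0, 0), (0, 0), (0, 0), (0, 0)]),
  (([8], [1, 3, 7, 10, 0]), [(0, 0), (0, 0), (2, 87), (0, 0), (2, 88), (0, 0), (0, 0), (0, 0), (0,
  0), (0, 0), (0, 0), (0, 0), (0, 0)]),
  (([8, 2], [1, 3, 7, 10, 0]), [(0, 0), (0, 0), (0, 0), (0, 0), (0, 0), (0, 0), (0, 0), (0, 0),
  (0, 0), (0, 0), (0, 0), (0, 0), (0, 0)]),
  (([8, 4], [1, 3, 7, 10, 0]), [(0, 0), (0, 0), (0, 0), (0, 0), (0, 0), (0, 0), (0, 0), (0, 0),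
  (0, 0), (0, 0), (0, 0), (0, 0), (0, 0)]),
  (([8, 4], [1, 3, 7, 10]), [(3, 88), (0, 0), (0, 0), (0, 0), (0, 0), (3, 90), (0, 0), (0, 0), (0,
  0), (0, 0), (0, 0), (0, 0), (0, 0)]),
  (([8, 4], [1, 3, 7, 10, 5]), [(0, 0), (0, 0), (0, 0), (0, 0), (0, 0), (0, 0), (0, 0), (0, 0),
  (0, 0), (0, 0), (0, 0), (0, 0), (0, 0)]),
  (([8], [1, 3, 7, 10, 5]), [(0, 0), (0, 0), (0, 0), (0, 0), (2, 90), (0, 0), (0, 0), (0, 0), (0,
  0), (0, 0), (0, 0), (0, 0), (0, 0)]),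
  (([], [1, 3, 7, 11]), [(0, 0), (0, 0), (0, 0), (0, 0), (0, 0), (3, 93), (0, 0), (0, 0), (0, 0),
  (0, 0), (0, 0), (0, 0), (0, 0)]),
  (([], [1, 3, 7, 11, 5]), [(0, 0), (0, 0), (0, 0), (0, 0), (0, 0), (0, 0), (0, 0), (0, 0), (0,
  0), (0, 0), (0, 0), (0, 0), (0, 0)]),
  (([], [1, 3, 10]), [(0, 0), (0, 0), (0, 0), (0, 0), (0, 0), (0, 0), (2, 81), (3, 84), (2, 85),
  (0, 0), (0, 0), (0, 0), (0, 0)]),
  (([], [1, 3, 11]), [(0, 0), (0, 0), (0, 0), (0, 0), (0, 0), (3, 96), (0, 0), (3, 92), (0, 0),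
  (0, 0), (0, 0), (0, 0), (0, 0)]),
  (([], [1, 3, 11, 5]), [(0, 0), (0, 0), (0, 0), (0, 0), (0, 0), (0, 0), (0, 0), (3, 93), (0, 0),
  (0, 0), (0, 0), (0, 0), (0, 0)]),
  (([], [1, 5]), [(0, 0), (0, 0), (0, 0), (0, 0), (0, 0), (0, 0), (0, 0), (3, 98), (2, 99), (0,
  0), (3, 124), (3, 125), (0, 0)]),
  (([], [1, 5, 7]), [(0, 0), (0, 0), (0, 0), (0, 0), (0, 0), (0, 0), (0, 0), (0, 0), (2, 99), (0,
  0), (3, 119), (3, 120), (0, 0)]),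
  (([8], [1, 5, 7]), [(0, 0), (0, 0), (0, 0), (0, 0), (2, 100), (0, 0), (3, 106), (0, 0), (0, 0),
  (3, 111), (0, 0), (3, 117), (0, 0)]),
  (([8, 4], [1, 5, 7]), [(0, 0), (0, 0), (0, 0), (0, 0), (0, 0), (0, 0), (3, 101), (0, 0), (0, 0),
  (3, 104), (0, 0), (0, 0), (0, 0)]),
  (([8, 4], [1, 5, 7, 6]), [(0, 0), (0, 0), (0, 0), (0, 0), (0, 0), (0, 0), (0, 0), (0, 0), (0,
  0), (3, 102), (3, 103), (0, 0), (0, 0)]),
  (([8, 4], [1, 5, 7, 6, 9]), [(0, 0), (0, 0), (0, 0), (0, 0), (0, 0), (0, 0), (0, 0), (0, 0), (0,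
  0), (0, 0), (0, 0), (0, 0), (0, 0)]),
  (([8, 4], [1, 5, 7, 6, 10]), [(0, 0), (0, 0), (0, 0), (0, 0), (0, 0), (0, 0), (0, 0), (0, 0),
  (0, 0), (0, 0), (0, 0), (0, 0), (0, 0)]),
  (([8, 4], [1, 5, 7, 9]), [(0, 0), (0, 0), (0, 0), (0, 0), (0, 0), (0, 0), (3, 102), (0, 0), (0,
  0), (0, 0), (3, 105), (0, 0), (0, 0)]),
  (([8, 4], [1, 5, 7, 9, 10]), [(0, 0), (0, 0), (0, 0), (0, 0), (0, 0), (0, 0), (0, 0), (0, 0),
  (0, 0), (0, 0), (0, 0), (0, 0), (0, 0)]),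
  (([8], [1, 5, 7, 6]), [(0, 0), (0, 0), (0, 0), (0, 0), (2, 101), (0, 0), (0, 0), (0, 0), (0, 0),
  (3, 107), (3, 109), (3, 110), (0, 0)]),
  (([8], [1, 5, 7, 6, 9]), [(0, 0), (0, 0), (0, 0), (0, 0), (2, 102), (0, 0), (0, 0), (0, 0), (0,
  0), (0, 0), (0, 0), (3, 108), (0, 0)]),
  (([8], [1, 5, 7, 6, 9, 11]), [(0, 0), (0, 0), (2, 102), (0, 0), (2, 102), (0, 0), (0, 0), (0,
  0), (0, 0), (0, 0), (0, 0), (0, 0), (0, 0)]),
  (([8], [1, 5, 7, 6, 10]), [(0, 0), (0, 0), (0, 0), (0, 0), (2, 103), (0, 0), (0, 0), (0, 0), (0,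
  0), (0, 0), (0, 0), (0, 0), (0, 0)]),
  (([8], [1, 5, 7, 6, 11]), [(0, 0), (0, 0), (2, 102), (0, 0), (2, 101), (0, 0), (0, 0), (0, 0),
  (0, 0), (3, 108), (0, 0), (0, 0), (0, 0)]),
  (([8], [1, 5, 7, 9]), [(0, 0), (0, 0), (0, 0), (0, 0), (2, 104), (0, 0), (3, 107), (0, 0), (0,
  0), (0, 0), (3, 112), (3, 116), (0, 0)]),
  (([8], [1, 5, 7, 9, 10]), [(0, 0), (0, 0), (2, 113), (0, 0), (2, 105), (0, 0), (0, 0), (0, 0),
  (0, 0), (0, 0), (0, 0), (3, 115), (0, 0)]),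
  (([8, 2], [1, 5, 7, 9, 10]), [(3, 114), (0, 0), (0, 0), (0, 0), (0, 0), (0, 0), (0, 0), (0, 0),
  (0, 0), (0, 0), (0, 0), (3, 105), (0, 0)]),
  (([8, 2], [1, 5, 7, 9, 10, 0]), [(0, 0), (0, 0), (0, 0), (0, 0), (0, 0), (0, 0), (0, 0), (0, 0),
  (0, 0), (0, 0), (0, 0), (0, 0), (0, 0)]),
  (([8], [1, 5, 7, 9, 10, 11]), [(0, 0), (0, 0), (2, 105), (0, 0), (2, 105), (0, 0), (0, 0), (0,
  0), (0, 0), (0, 0), (0, 0), (0, 0), (0, 0)]),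
  (([8], [1, 5, 7, 9, 11]), [(0, 0), (0, 0), (2, 104), (0, 0), (2, 104), (0, 0), (3, 108), (0, 0),
  (0, 0), (0, 0), (3, 115), (0, 0), (0, 0)]),
  (([8], [1, 5, 7, 11]), [(0, 0), (0, 0), (2, 104), (0, 0), (2, 100), (0, 0), (3, 110), (0, 0),
  (0, 0), (3, 116), (3, 118), (0, 0), (0, 0)]),
  (([8], [1, 5, 7, 11, 10]), [(0, 0), (0, 0), (2, 105), (0, 0), (0, 0), (0, 0), (0, 0), (0, 0),
  (0, 0), (3, 115), (0, 0), (0, 0), (0, 0)]),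
  (([], [1, 5, 7, 10]), [(0, 0), (0, 0), (0, 0), (0, 0), (0, 0), (0, 0), (0, 0), (0, 0), (0, 0),
  (0, 0), (0, 0), (0, 0), (0, 0)]),
  (([], [1, 5, 7, 11]), [(0, 0), (0, 0), (2, 121), (3, 93), (0, 0), (0, 0), (0, 0), (0, 0), (2,
  117), (0, 0), (0, 0), (0, 0), (0, 0)]),
  (([2], [1, 5, 7, 11]), [(0, 0), (0, 0), (0, 0), (0, 0), (3, 122), (0, 0), (0, 0), (0, 0), (2,
  104), (0, 0), (0, 0), (0, 0), (0, 0)]),
  (([2], [1, 5, 7, 11, 4]), [(0, 0), (0, 0), (0, 0), (0, 0), (0, 0), (0, 0), (0, 0), (0, 0), (2,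
  104), (3, 123), (0, 0), (0, 0), (0, 0)]),
  (([2], [1, 5, 7, 11, 4, 9]), [(0, 0), (0, 0), (0, 0), (0, 0), (0, 0), (0, 0), (0, 0), (0, 0),
  (2, 104), (0, 0), (0, 0), (0, 0), (0, 0)]),
  (([], [1, 5, 10]), [(0, 0), (0, 0), (0, 0), (0, 0), (0, 0), (0, 0), (0, 0), (3, 119), (0, 0),
  (0, 0), (0, 0), (0, 0), (0, 0)]),
  (([], [1, 5, 11]), [(0, 0), (0, 0), (2, 126), (3, 96), (0, 0), (0, 0), (0, 0), (3, 120), (2,
  117), (0, 0), (0, 0), (0, 0), (0, 0)]),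
  (([2], [1, 5, 11]), [(0, 0), (0, 0), (0, 0), (0, 0), (3, 127), (0, 0), (0, 0), (3, 121), (2,
  104), (0, 0), (0, 0), (0, 0), (0, 0)]),
  (([2], [1, 5, 11, 4]), [(0, 0), (0, 0), (0, 0), (0, 0), (0, 0), (0, 0), (0, 0), (3, 122), (2,
  104), (0, 0), (0, 0), (0, 0), (0, 0)]),
  (([], [1, 7]), [(0, 0), (0, 0), (3, 75), (3, 83), (0, 0), (3, 98), (0, 0), (0, 0), (0, 0), (0,
  0), (3, 129), (3, 137), (0, 0)]),
  (([], [1, 7, 10]), [(0, 0), (0, 0), (0, 0), (3, 84), (0, 0), (3, 119), (0, 0), (0, 0), (2, 130),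
  (0, 0), (0, 0), (0, 0), (0, 0)]),
  (([8], [1, 7, 10]), [(3, 131), (0, 0), (0, 0), (3, 85), (2, 136), (0, 0), (0, 0), (0, 0), (0,
  0), (0, 0), (0, 0), (0, 0), (0, 0)]),
  (([8], [1, 7, 10, 0]), [(0, 0), (0, 0), (2, 132), (3, 86), (2, 133), (3, 135), (0, 0), (0, 0),
  (0, 0), (0, 0), (0, 0), (0, 0), (0, 0)]),
  (([8, 2], [1, 7, 10, 0]), [(0, 0), (0, 0), (0, 0), (3, 87), (0, 0), (3, 114), (0, 0), (0, 0),
  (0, 0), (0, 0), (0, 0), (0, 0), (0, 0)]),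
  (([8, 4], [1, 7, 10, 0]), [(0, 0), (0, 0), (0, 0), (3, 88), (0, 0), (3, 134), (0, 0), (0, 0),
  (0, 0), (0, 0), (0, 0), (0, 0), (0, 0)]),
  (([8, 4], [1, 7, 10, 0, 5]), [(0, 0), (0, 0), (0, 0), (0, 0), (0, 0), (0, 0), (0, 0), (0, 0),
  (0, 0), (0, 0), (0, 0), (0, 0), (0, 0)]),
  (([8], [1, 7, 10, 0, 5]), [(0, 0), (0, 0), (2, 114), (0, 0), (2, 134), (0, 0), (0, 0), (0, 0),
  (0, 0), (0, 0), (0, 0), (0, 0), (0, 0)]),
  (([8, 4], [1, 7, 10]), [(3, 133), (0, 0), (0, 0), (3, 89), (0, 0), (0, 0), (0, 0), (0, 0), (0,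
  0), (0, 0), (0, 0), (0, 0), (0, 0)]),
  (([], [1, 7, 11]), [(0, 0), (0, 0), (0, 0), (3, 92), (0, 0), (3, 120), (0, 0), (0, 0), (0, 0),
  (0, 0), (0, 0), (0, 0), (0, 0)]),
  (([], [1, 10]), [(0, 0), (0, 0), (0, 0), (3, 94), (0, 0), (3, 124), (0, 0), (3, 129), (2, 130),
  (0, 0), (0, 0), (0, 0), (0, 0)]),
  (([], [1, 11]), [(0, 0), (0, 0), (0, 0), (3, 95), (0, 0), (3, 125), (0, 0), (3, 137), (0, 0),
  (0, 0), (0, 0), (0, 0), (0, 0)]),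
  (([], [2]), [(0, 0), (3, 67), (0, 0), (3, 141), (3, 149), (0, 0), (0, 0), (3, 160), (0, 0), (3,
  162), (0, 0), (0, 0), (0, 0)]),
  (([], [2, 3]), [(0, 0), (3, 71), (0, 0), (0, 0), (0, 0), (0, 0), (0, 0), (3, 142), (0, 0), (3,
  147), (0, 0), (0, 0), (0, 0)]),
  (([], [2, 3, 7]), [(0, 0), (3, 72), (0, 0), (0, 0), (0, 0), (0, 0), (0, 0), (0, 0), (0, 0), (3,
  143), (0, 0), (0, 0), (0, 0)]),
  (([], [2, 3, 7, 9]), [(2, 144), (3, 73), (0, 0), (0, 0), (0, 0), (0, 0), (0, 0), (0, 0), (0, 0),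
  (0, 0), (0, 0), (0, 0), (0, 0)]),
  (([0], [2, 3, 7, 9]), [(0, 0), (3, 69), (0, 0), (0, 0), (3, 145), (3, 146), (0, 0), (0, 0), (0,
  0), (0, 0), (0, 0), (2, 70), (0, 0)]),
  (([0], [2, 3, 7, 9, 4]), [(0, 0), (0, 0), (0, 0), (0, 0), (0, 0), (0, 0), (0, 0), (0, 0), (0,
  0), (0, 0), (0, 0), (2, 70), (0, 0)]),
  (([0], [2, 3, 7, 9, 5]), [(0, 0), (0, 0), (0, 0), (0, 0), (0, 0), (0, 0), (0, 0), (0, 0), (0,
  0), (0, 0), (0, 0), (2, 70), (0, 0)]),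
  (([], [2, 3, 9]), [(2, 144), (3, 74), (0, 0), (0, 0), (0, 0), (0, 0), (0, 0), (3, 143), (0, 0),
  (0, 0), (2, 148), (0, 0), (0, 0)]),
  (([10], [2, 3, 9]), [(0, 0), (0, 0), (0, 0), (0, 0), (0, 0), (0, 0), (0, 0), (0, 0), (0, 0), (0,
  0), (0, 0), (0, 0), (0, 0)]),
  (([], [2, 4]), [(0, 0), (0, 0), (0, 0), (0, 0), (0, 0), (2, 150), (0, 0), (3, 151), (0, 0), (3,
  159), (0, 0), (2, 154), (0, 0)]),
  (([5], [2, 4]), [(0, 0), (0, 0), (0, 0), (0, 0), (0, 0), (0, 0), (0, 0), (0, 0), (0, 0), (0, 0),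
  (0, 0), (0, 0), (0, 0)]),
  (([], [2, 4, 7]), [(0, 0), (0, 0), (0, 0), (0, 0), (0, 0), (2, 150), (0, 0), (0, 0), (0, 0), (3,
  152), (0, 0), (2, 154), (0, 0)]),
  (([], [2, 4, 7, 9]), [(2, 145), (0, 0), (0, 0), (0, 0), (0, 0), (2, 150), (0, 0), (0, 0), (0,
  0), (0, 0), (0, 0), (2, 153), (0, 0)]),
  (([11], [2, 4, 7, 9]), [(2, 70), (0, 0), (0, 0), (0, 0), (0, 0), (0, 0), (0, 0), (0, 0), (0, 0),
  (0, 0), (0, 0), (0, 0), (0, 0)]),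
  (([11], [2, 4, 7]), [(0, 0), (0, 0), (0, 0), (0, 0), (0, 0), (0, 0), (3, 155), (0, 0), (0, 0),
  (3, 153), (3, 158), (0, 0), (0, 0)]),
  (([11], [2, 4, 7, 6]), [(0, 0), (0, 0), (0, 0), (2, 13), (0, 0), (0, 0), (0, 0), (0, 0), (0, 0),
  (0, 0), (3, 156), (0, 0), (0, 0)]),
  (([11], [2, 4, 7, 6, 10]), [(0, 0), (0, 0), (0, 0), (2, 13), (0, 0), (0, 0), (0, 0), (0, 0), (0,
  0), (2, 157), (0, 0), (0, 0), (0, 0)]),
  (([11, 9], [2, 4, 7, 6, 10]), [(0, 0), (0, 0), (0, 0), (0, 0), (0, 0), (0, 0), (0, 0), (0, 0),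
  (0, 0), (0, 0), (0, 0), (0, 0), (0, 0)]),
  (([11], [2, 4, 7, 10]), [(0, 0), (0, 0), (0, 0), (0, 0), (0, 0), (0, 0), (3, 156), (0, 0), (0,
  0), (0, 0), (0, 0), (0, 0), (0, 0)]),
  (([], [2, 4, 9]), [(2, 145), (0, 0), (0, 0), (0, 0), (0, 0), (2, 150), (0, 0), (3, 152), (0, 0),
  (0, 0), (0, 0), (2, 153), (0, 0)]),
  (([], [2, 7]), [(0, 0), (3, 75), (0, 0), (3, 142), (3, 151), (0, 0), (0, 0), (0, 0), (0, 0), (3,
  161), (0, 0), (0, 0), (0, 0)]),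
  (([], [2, 7, 9]), [(2, 144), (3, 76), (0, 0), (3, 143), (3, 152), (0, 0), (0, 0), (0, 0), (0,
  0), (0, 0), (0, 0), (0, 0), (0, 0)]),
  (([], [2, 9]), [(2, 144), (3, 77), (0, 0), (3, 147), (3, 159), (0, 0), (0, 0), (3, 161), (0, 0),
  (0, 0), (2, 148), (0, 0), (0, 0)]),
  (([], [3]), [(3, 2), (3, 78), (3, 141), (0, 0), (0, 0), (0, 0), (0, 0), (3, 164), (0, 0), (3,
  191), (3, 196), (3, 197), (0, 0)]),
  (([], [3, 7]), [(3, 4), (3, 83), (3, 142), (0, 0), (0, 0), (0, 0), (0, 0), (0, 0), (0, 0), (0,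
  0), (3, 165), (3, 179), (0, 0)]),
  (([], [3, 7, 10]), [(0, 0), (3, 84), (0, 0), (0, 0), (0, 0), (0, 0), (0, 0), (0, 0), (2, 166),
  (0, 0), (0, 0), (0, 0), (0, 0)]),
  (([8], [3, 7, 10]), [(3, 167), (3, 85), (0, 0), (0, 0), (2, 172), (3, 176), (3, 178), (0, 0),
  (0, 0), (0, 0), (0, 0), (0, 0), (0, 0)]),
  (([8], [3, 7, 10, 0]), [(0, 0), (3, 86), (2, 168), (0, 0), (2, 170), (0, 0), (3, 171), (0, 0),
  (0, 0), (0, 0), (0, 0), (0, 0), (0, 0)]),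
  (([8, 2], [3, 7, 10, 0]), [(0, 0), (3, 87), (0, 0), (0, 0), (0, 0), (0, 0), (3, 169), (0, 0),
  (0, 0), (0, 0), (0, 0), (0, 0), (0, 0)]),
  (([8, 2], [3, 7, 10, 0, 6]), [(0, 0), (0, 0), (0, 0), (0, 0), (0, 0), (0, 0), (0, 0), (0, 0),
  (0, 0), (0, 0), (0, 0), (0, 0), (0, 0)]),
  (([8, 4], [3, 7, 10, 0]), [(0, 0), (3, 88), (0, 0), (0, 0), (0, 0), (0, 0), (3, 13), (0, 0), (0,
  0), (0, 0), (0, 0), (0, 0), (0, 0)]),
  (([8], [3, 7, 10, 0, 6]), [(0, 0), (0, 0), (2, 169), (0, 0), (2, 13), (0, 0), (0, 0), (0, 0),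
  (0, 0), (0, 0), (0, 0), (0, 0), (0, 0)]),
  (([8, 4], [3, 7, 10]), [(3, 170), (3, 89), (0, 0), (0, 0), (0, 0), (3, 173), (3, 175), (0, 0),
  (0, 0), (0, 0), (0, 0), (0, 0), (0, 0)]),
  (([8, 4], [3, 7, 10, 5]), [(0, 0), (3, 90), (0, 0), (0, 0), (0, 0), (0, 0), (3, 174), (0, 0),
  (0, 0), (0, 0), (0, 0), (0, 0), (0, 0)]),
  (([8, 4], [3, 7, 10, 5, 6]), [(0, 0), (0, 0), (0, 0), (0, 0), (0, 0), (0, 0), (0, 0), (0, 0),
  (0, 0), (0, 0), (0, 0), (0, 0), (0, 0)]),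
  (([8, 4], [3, 7, 10, 6]), [(3, 13), (0, 0), (0, 0), (0, 0), (0, 0), (3, 174), (0, 0), (0, 0),
  (0, 0), (0, 0), (0, 0), (0, 0), (0, 0)]),
  (([8], [3, 7, 10, 5]), [(0, 0), (3, 91), (0, 0), (0, 0), (2, 173), (0, 0), (3, 177), (0, 0), (0,
  0), (0, 0), (0, 0), (0, 0), (0, 0)]),
  (([8], [3, 7, 10, 5, 6]), [(0, 0), (0, 0), (0, 0), (0, 0), (2, 174), (0, 0), (0, 0), (0, 0), (0,
  0), (0, 0), (0, 0), (0, 0), (0, 0)]),
  (([8], [3, 7, 10, 6]), [(3, 171), (0, 0), (0, 0), (0, 0), (2, 175), (3, 177), (0, 0), (0, 0),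
  (0, 0), (0, 0), (0, 0), (0, 0), (0, 0)]),
  (([], [3, 7, 11]), [(3, 8), (3, 92), (0, 0), (0, 0), (0, 0), (3, 180), (3, 186), (0, 0), (0, 0),
  (0, 0), (0, 0), (0, 0), (0, 0)]),
  (([], [3, 7, 11, 5]), [(0, 0), (3, 93), (0, 0), (0, 0), (0, 0), (0, 0), (3, 181), (0, 0), (0,
  0), (0, 0), (0, 0), (0, 0), (0, 0)]),
  (([], [3, 7, 11, 5, 6]), [(0, 0), (0, 0), (0, 0), (0, 0), (0, 0), (0, 0), (0, 0), (0, 0), (2,
  182), (0, 0), (0, 0), (0, 0), (0, 0)]),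
  (([8], [3, 7, 11, 5, 6]), [(0, 0), (0, 0), (2, 183), (0, 0), (2, 184), (0, 0), (0, 0), (0, 0),
  (0, 0), (3, 185), (0, 0), (0, 0), (0, 0)]),
  (([8, 2], [3, 7, 11, 5, 6]), [(0, 0), (0, 0), (0, 0), (0, 0), (0, 0), (0, 0), (0, 0), (0, 0),
  (0, 0), (0, 0), (0, 0), (0, 0), (0, 0)]),
  (([8, 4], [3, 7, 11, 5, 6]), [(0, 0), (0, 0), (0, 0), (0, 0), (0, 0), (0, 0), (0, 0), (0, 0),
  (0, 0), (3, 183), (3, 174), (0, 0), (0, 0)]),
  (([8], [3, 7, 11, 5, 6, 9]), [(0, 0), (0, 0), (2, 183), (0, 0), (2, 183), (0, 0), (0, 0), (0,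
  0), (0, 0), (0, 0), (0, 0), (0, 0), (0, 0)]),
  (([], [3, 7, 11, 6]), [(3, 9), (0, 0), (0, 0), (0, 0), (0, 0), (3, 181), (0, 0), (0, 0), (2,
  187), (0, 0), (0, 0), (0, 0), (0, 0)]),
  (([8], [3, 7, 11, 6]), [(3, 10), (0, 0), (2, 188), (0, 0), (2, 189), (3, 182), (0, 0), (0, 0),
  (0, 0), (3, 190), (0, 0), (0, 0), (0, 0)]),
  (([8, 2], [3, 7, 11, 6]), [(3, 11), (0, 0), (0, 0), (0, 0), (0, 0), (3, 183), (0, 0), (0, 0),
  (0, 0), (0, 0), (0, 0), (0, 0), (0, 0)]),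
  (([8, 4], [3, 7, 11, 6]), [(3, 12), (0, 0), (0, 0), (0, 0), (0, 0), (3, 184), (0, 0), (0, 0),
  (0, 0), (3, 188), (3, 175), (0, 0), (0, 0)]),
  (([8], [3, 7, 11, 6, 9]), [(3, 14), (0, 0), (2, 188), (0, 0), (2, 188), (3, 185), (0, 0), (0,
  0), (0, 0), (0, 0), (0, 0), (0, 0), (0, 0)]),
  (([], [3, 9]), [(0, 0), (0, 0), (3, 147), (0, 0), (0, 0), (0, 0), (0, 0), (0, 0), (0, 0), (0,
  0), (0, 0), (3, 192), (0, 0)]),
  (([], [3, 9, 11]), [(3, 18), (0, 0), (0, 0), (0, 0), (0, 0), (3, 193), (3, 195), (0, 0), (0, 0),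
  (0, 0), (0, 0), (0, 0), (0, 0)]),
  (([], [3, 9, 11, 5]), [(0, 0), (0, 0), (0, 0), (0, 0), (0, 0), (0, 0), (3, 194), (0, 0), (0, 0),
  (0, 0), (0, 0), (0, 0), (0, 0)]),
  (([], [3, 9, 11, 5, 6]), [(0, 0), (0, 0), (0, 0), (0, 0), (0, 0), (0, 0), (0, 0), (0, 0), (2,
  185), (0, 0), (0, 0), (0, 0), (0, 0)]),
  (([], [3, 9, 11, 6]), [(3, 17), (0, 0), (0, 0), (0, 0), (0, 0), (3, 194), (0, 0), (0, 0), (2,
  190), (0, 0), (0, 0), (0, 0), (0, 0)]),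
  (([], [3, 10]), [(0, 0), (3, 94), (0, 0), (0, 0), (0, 0), (0, 0), (0, 0), (3, 165), (2, 166),
  (0, 0), (0, 0), (0, 0), (0, 0)]),
  (([], [3, 11]), [(3, 15), (3, 95), (0, 0), (0, 0), (0, 0), (3, 198), (3, 200), (3, 179), (0, 0),
  (3, 192), (0, 0), (0, 0), (0, 0)]),
  (([], [3, 11, 5]), [(0, 0), (3, 96), (0, 0), (0, 0), (0, 0), (0, 0), (3, 199), (3, 180), (0, 0),
  (3, 193), (0, 0), (0, 0), (0, 0)]),
  (([], [3, 11, 5, 6]), [(0, 0), (0, 0), (0, 0), (0, 0), (0, 0), (0, 0), (0, 0), (3, 181), (2,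
  182), (3, 194), (0, 0), (0, 0), (0, 0)]),
  (([], [3, 11, 6]), [(3, 16), (0, 0), (0, 0), (0, 0), (0, 0), (3, 199), (0, 0), (3, 186), (2,
  187), (3, 195), (0, 0), (0, 0), (0, 0)]),
  (([], [4]), [(3, 19), (0, 0), (3, 149), (0, 0), (0, 0), (0, 0), (3, 202), (3, 211), (3, 220),
  (3, 225), (3, 228), (0, 0), (0, 0)]),
  (([], [4, 6]), [(3, 20), (0, 0), (0, 0), (2, 25), (0, 0), (0, 0), (0, 0), (3, 203), (3, 208),
  (0, 0), (3, 210), (0, 0), (0, 0)]),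
  (([], [4, 6, 7]), [(3, 27), (0, 0), (0, 0), (2, 25), (0, 0), (0, 0), (0, 0), (0, 0), (3, 204),
  (0, 0), (3, 206), (0, 0), (0, 0)]),
  (([], [4, 6, 7, 8]), [(3, 28), (0, 0), (0, 0), (2, 26), (0, 0), (0, 0), (0, 0), (0, 0), (0, 0),
  (0, 0), (3, 205), (0, 0), (0, 0)]),
  (([], [4, 6, 7, 8, 10]), [(0, 0), (0, 0), (0, 0), (2, 26), (0, 0), (0, 0), (0, 0), (0, 0), (0,
  0), (0, 0), (0, 0), (0, 0), (0, 0)]),
  (([], [4, 6, 7, 10]), [(0, 0), (0, 0), (0, 0), (2, 25), (0, 0), (0, 0), (0, 0), (0, 0), (3,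
  205), (0, 0), (0, 0), (2, 207), (0, 0)]),
  (([11], [4, 6, 7, 10]), [(0, 0), (0, 0), (3, 156), (2, 13), (0, 0), (0, 0), (0, 0), (0, 0), (0,
  0), (2, 157), (0, 0), (0, 0), (0, 0)]),
  (([], [4, 6, 8]), [(3, 29), (0, 0), (0, 0), (2, 26), (0, 0), (0, 0), (0, 0), (3, 204), (0, 0),
  (0, 0), (3, 209), (0, 0), (0, 0)]),
  (([], [4, 6, 8, 10]), [(0, 0), (0, 0), (0, 0), (2, 26), (0, 0), (0, 0), (0, 0), (3, 205), (0,
  0), (0, 0), (0, 0), (0, 0), (0, 0)]),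
  (([], [4, 6, 10]), [(0, 0), (0, 0), (0, 0), (2, 25), (0, 0), (0, 0), (0, 0), (3, 206), (3, 209),
  (0, 0), (0, 0), (2, 207), (0, 0)]),
  (([], [4, 7]), [(3, 30), (0, 0), (3, 151), (0, 0), (0, 0), (0, 0), (3, 203), (0, 0), (3, 212),
  (3, 216), (3, 218), (0, 0), (0, 0)]),
  (([], [4, 7, 8]), [(3, 31), (0, 0), (0, 0), (0, 0), (0, 0), (0, 0), (3, 204), (0, 0), (0, 0),
  (3, 213), (3, 215), (0, 0), (0, 0)]),
  (([], [4, 7, 8, 9]), [(0, 0), (0, 0), (0, 0), (0, 0), (0, 0), (0, 0), (0, 0), (0, 0), (0, 0),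
  (0, 0), (3, 214), (0, 0), (0, 0)]),
  (([], [4, 7, 8, 9, 10]), [(0, 0), (0, 0), (0, 0), (0, 0), (0, 0), (0, 0), (0, 0), (0, 0), (0,
  0), (0, 0), (0, 0), (0, 0), (0, 0)]),
  (([], [4, 7, 8, 10]), [(0, 0), (0, 0), (0, 0), (0, 0), (0, 0), (0, 0), (3, 205), (0, 0), (0, 0),
  (3, 214), (0, 0), (0, 0), (0, 0)]),
  (([], [4, 7, 9]), [(0, 0), (0, 0), (3, 152), (0, 0), (0, 0), (0, 0), (0, 0), (0, 0), (3, 213),
  (0, 0), (3, 217), (0, 0), (0, 0)]),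
  (([], [4, 7, 9, 10]), [(0, 0), (0, 0), (0, 0), (0, 0), (0, 0), (0, 0), (0, 0), (0, 0), (3, 214),
  (0, 0), (0, 0), (0, 0), (0, 0)]),
  (([], [4, 7, 10]), [(0, 0), (0, 0), (0, 0), (0, 0), (0, 0), (0, 0), (3, 206), (0, 0), (3, 215),
  (3, 217), (0, 0), (2, 219), (0, 0)]),
  (([11], [4, 7, 10]), [(0, 0), (0, 0), (3, 158), (0, 0), (0, 0), (0, 0), (3, 207), (0, 0), (0,
  0), (0, 0), (0, 0), (0, 0), (0, 0)]),
  (([], [4, 8]), [(3, 32), (0, 0), (0, 0), (0, 0), (0, 0), (0, 0), (3, 208), (3, 212), (0, 0), (3,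
  221), (3, 224), (0, 0), (0, 0)]),
  (([], [4, 8, 9]), [(0, 0), (2, 222), (0, 0), (0, 0), (0, 0), (0, 0), (0, 0), (3, 213), (0, 0),
  (0, 0), (3, 223), (0, 0), (0, 0)]),
  (([1], [4, 8, 9]), [(0, 0), (0, 0), (2, 58), (0, 0), (0, 0), (0, 0), (0, 0), (0, 0), (0, 0), (0,
  0), (0, 0), (0, 0), (0, 0)]),
  (([], [4, 8, 9, 10]), [(0, 0), (0, 0), (0, 0), (0, 0), (0, 0), (0, 0), (0, 0), (3, 214), (0, 0),
  (0, 0), (0, 0), (0, 0), (0, 0)]),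
  (([], [4, 8, 10]), [(0, 0), (0, 0), (0, 0), (0, 0), (0, 0), (0, 0), (3, 209), (3, 215), (0, 0),
  (3, 223), (0, 0), (0, 0), (0, 0)]),
  (([], [4, 9]), [(0, 0), (2, 226), (3, 159), (0, 0), (0, 0), (0, 0), (0, 0), (3, 216), (3, 221),
  (0, 0), (3, 227), (0, 0), (0, 0)]),
  (([1], [4, 9]), [(0, 0), (0, 0), (0, 0), (0, 0), (0, 0), (0, 0), (0, 0), (0, 0), (3, 222), (0,
  0), (0, 0), (0, 0), (0, 0)]),
  (([], [4, 9, 10]), [(0, 0), (0, 0), (0, 0), (0, 0), (0, 0), (0, 0), (0, 0), (3, 217), (3, 223),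
  (0, 0), (0, 0), (0, 0), (0, 0)]),
  (([], [4, 10]), [(0, 0), (0, 0), (0, 0), (0, 0), (0, 0), (0, 0), (3, 210), (3, 218), (3, 224),
  (3, 227), (0, 0), (2, 219), (0, 0)]),
  (([], [5]), [(0, 0), (3, 97), (0, 0), (0, 0), (0, 0), (0, 0), (3, 230), (3, 255), (0, 0), (3,
  263), (3, 268), (3, 269), (0, 0)]),
  (([], [5, 6]), [(0, 0), (0, 0), (0, 0), (0, 0), (0, 0), (0, 0), (0, 0), (3, 231), (2, 232), (0,
  0), (3, 249), (3, 251), (0, 0)]),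
  (([], [5, 6, 7]), [(0, 0), (0, 0), (0, 0), (0, 0), (0, 0), (0, 0), (0, 0), (0, 0), (2, 232), (2,
  242), (3, 245), (3, 246), (0, 0)]),
  (([8], [5, 6, 7]), [(0, 0), (3, 106), (0, 0), (3, 233), (2, 235), (0, 0), (0, 0), (0, 0), (0,
  0), (3, 238), (3, 240), (3, 241), (0, 0)]),
  (([8], [5, 6, 7, 3]), [(0, 0), (0, 0), (0, 0), (0, 0), (2, 184), (0, 0), (0, 0), (0, 0), (0, 0),
  (3, 234), (3, 177), (3, 182), (0, 0)]),
  (([8], [5, 6, 7, 3, 9]), [(0, 0), (0, 0), (0, 0), (0, 0), (2, 183), (0, 0), (0, 0), (0, 0), (0,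
  0), (0, 0), (0, 0), (3, 185), (0, 0)]),
  (([8, 4], [5, 6, 7]), [(0, 0), (3, 101), (0, 0), (3, 184), (0, 0), (0, 0), (0, 0), (0, 0), (0,
  0), (3, 236), (3, 237), (0, 0), (0, 0)]),
  (([8, 4], [5, 6, 7, 9]), [(0, 0), (3, 102), (0, 0), (3, 183), (0, 0), (0, 0), (0, 0), (0, 0),
  (0, 0), (0, 0), (0, 0), (0, 0), (0, 0)]),
  (([8, 4], [5, 6, 7, 10]), [(0, 0), (3, 103), (0, 0), (3, 174), (0, 0), (0, 0), (0, 0), (0, 0),
  (0, 0), (0, 0), (0, 0), (0, 0), (0, 0)]),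
  (([8], [5, 6, 7, 9]), [(0, 0), (3, 107), (0, 0), (3, 234), (2, 236), (0, 0), (0, 0), (0, 0), (0,
  0), (0, 0), (0, 0), (3, 239), (0, 0)]),
  (([8], [5, 6, 7, 9, 11]), [(0, 0), (3, 108), (2, 236), (3, 185), (2, 236), (0, 0), (0, 0), (0,
  0), (0, 0), (0, 0), (0, 0), (0, 0), (0, 0)]),
  (([8], [5, 6, 7, 10]), [(0, 0), (3, 109), (0, 0), (3, 177), (2, 237), (0, 0), (0, 0), (0, 0),
  (0, 0), (0, 0), (0, 0), (0, 0), (0, 0)]),
  (([8], [5, 6, 7, 11]), [(0, 0), (3, 110), (2, 236), (3, 182), (2, 235), (0, 0), (0, 0), (0, 0),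
  (0, 0), (3, 239), (0, 0), (0, 0), (0, 0)]),
  (([9], [5, 6, 7]), [(3, 40), (0, 0), (2, 36), (0, 0), (0, 0), (0, 0), (0, 0), (0, 0), (3, 243),
  (0, 0), (3, 244), (0, 0), (0, 0)]),
  (([9], [5, 6, 7, 8]), [(3, 41), (0, 0), (2, 36), (0, 0), (0, 0), (0, 0), (0, 0), (0, 0), (0, 0),
  (0, 0), (0, 0), (0, 0), (0, 0)]),
  (([9], [5, 6, 7, 10]), [(0, 0), (0, 0), (2, 36), (0, 0), (0, 0), (0, 0), (0, 0), (0, 0), (0, 0),
  (0, 0), (0, 0), (2, 157), (0, 0)]),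
  (([], [5, 6, 7, 10]), [(0, 0), (0, 0), (0, 0), (0, 0), (0, 0), (0, 0), (0, 0), (0, 0), (2, 240),
  (2, 244), (0, 0), (0, 0), (0, 0)]),
  (([], [5, 6, 7, 11]), [(0, 0), (0, 0), (2, 247), (3, 181), (0, 0), (0, 0), (0, 0), (0, 0), (2,
  241), (0, 0), (0, 0), (0, 0), (0, 0)]),
  (([2], [5, 6, 7, 11]), [(0, 0), (0, 0), (0, 0), (0, 0), (3, 248), (0, 0), (0, 0), (0, 0), (2,
  236), (2, 36), (0, 0), (0, 0), (0, 0)]),
  (([2], [5, 6, 7, 11, 4]), [(0, 0), (0, 0), (0, 0), (0, 0), (0, 0), (0, 0), (0, 0), (0, 0), (2,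
  236), (0, 0), (0, 0), (0, 0), (0, 0)]),
  (([], [5, 6, 10]), [(0, 0), (0, 0), (0, 0), (0, 0), (0, 0), (0, 0), (0, 0), (3, 245), (2, 240),
  (2, 250), (0, 0), (0, 0), (0, 0)]),
  (([9], [5, 6, 10]), [(0, 0), (0, 0), (0, 0), (0, 0), (0, 0), (0, 0), (0, 0), (3, 244), (0, 0),
  (0, 0), (0, 0), (2, 157), (0, 0)]),
  (([], [5, 6, 11]), [(0, 0), (0, 0), (2, 252), (3, 199), (0, 0), (0, 0), (0, 0), (3, 246), (2,
  241), (3, 254), (0, 0), (0, 0), (0, 0)]),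
  (([2], [5, 6, 11]), [(0, 0), (0, 0), (0, 0), (0, 0), (3, 253), (0, 0), (0, 0), (3, 247), (2,
  236), (0, 0), (0, 0), (0, 0), (0, 0)]),
  (([2], [5, 6, 11, 4]), [(0, 0), (0, 0), (0, 0), (0, 0), (0, 0), (0, 0), (0, 0), (3, 248), (2,
  236), (0, 0), (0, 0), (0, 0), (0, 0)]),
  (([], [5, 6, 11, 9]), [(0, 0), (0, 0), (0, 0), (3, 194), (0, 0), (0, 0), (0, 0), (0, 0), (2,
  239), (0, 0), (0, 0), (0, 0), (0, 0)]),
  (([], [5, 7]), [(0, 0), (3, 98), (0, 0), (0, 0), (0, 0), (0, 0), (3, 231), (0, 0), (0, 0), (0,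
  0), (3, 256), (3, 259), (0, 0)]),
  (([], [5, 7, 10]), [(0, 0), (3, 119), (0, 0), (0, 0), (0, 0), (0, 0), (3, 245), (0, 0), (2,
  257), (0, 0), (0, 0), (0, 0), (0, 0)]),
  (([8], [5, 7, 10]), [(0, 0), (0, 0), (0, 0), (3, 176), (2, 258), (0, 0), (3, 240), (0, 0), (0,
  0), (0, 0), (0, 0), (0, 0), (0, 0)]),
  (([8, 4], [5, 7, 10]), [(0, 0), (0, 0), (0, 0), (3, 173), (0, 0), (0, 0), (3, 237), (0, 0), (0,
  0), (0, 0), (0, 0), (0, 0), (0, 0)]),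
  (([], [5, 7, 11]), [(0, 0), (3, 120), (2, 260), (3, 180), (0, 0), (0, 0), (3, 246), (0, 0), (0,
  0), (0, 0), (0, 0), (0, 0), (0, 0)]),
  (([2], [5, 7, 11]), [(0, 0), (3, 121), (0, 0), (0, 0), (3, 261), (0, 0), (3, 247), (0, 0), (0,
  0), (0, 0), (0, 0), (0, 0), (0, 0)]),
  (([2], [5, 7, 11, 4]), [(0, 0), (3, 122), (0, 0), (0, 0), (0, 0), (0, 0), (3, 248), (0, 0), (0,
  0), (3, 262), (0, 0), (0, 0), (0, 0)]),
  (([2], [5, 7, 11, 4, 9]), [(0, 0), (3, 123), (0, 0), (0, 0), (0, 0), (0, 0), (0, 0), (0, 0), (0,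
  0), (0, 0), (0, 0), (0, 0), (0, 0)]),
  (([], [5, 9]), [(2, 264), (0, 0), (0, 0), (0, 0), (0, 0), (0, 0), (0, 0), (0, 0), (0, 0), (0,
  0), (0, 0), (3, 265), (0, 0)]),
  (([0], [5, 9]), [(0, 0), (0, 0), (3, 146), (0, 0), (0, 0), (0, 0), (0, 0), (0, 0), (0, 0), (0,
  0), (0, 0), (0, 0), (0, 0)]),
  (([], [5, 9, 11]), [(0, 0), (0, 0), (2, 266), (3, 193), (0, 0), (0, 0), (3, 254), (0, 0), (0,
  0), (0, 0), (0, 0), (0, 0), (0, 0)]),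
  (([2], [5, 9, 11]), [(0, 0), (0, 0), (0, 0), (0, 0), (3, 267), (0, 0), (0, 0), (0, 0), (0, 0),
  (0, 0), (0, 0), (0, 0), (0, 0)]),
  (([2], [5, 9, 11, 4]), [(0, 0), (0, 0), (0, 0), (0, 0), (0, 0), (0, 0), (0, 0), (3, 262), (0,
  0), (0, 0), (0, 0), (0, 0), (0, 0)]),
  (([], [5, 10]), [(0, 0), (3, 124), (0, 0), (0, 0), (0, 0), (0, 0), (3, 249), (3, 256), (2, 257),
  (0, 0), (0, 0), (0, 0), (0, 0)]),
  (([], [5, 11]), [(0, 0), (3, 125), (2, 270), (3, 198), (0, 0), (0, 0), (3, 251), (3, 259), (0,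
  0), (3, 265), (0, 0), (0, 0), (0, 0)]),
  (([2], [5, 11]), [(0, 0), (3, 126), (0, 0), (0, 0), (3, 271), (0, 0), (3, 252), (3, 260), (0,
  0), (3, 266), (0, 0), (0, 0), (0, 0)]),
  (([2], [5, 11, 4]), [(0, 0), (3, 127), (0, 0), (0, 0), (0, 0), (0, 0), (3, 253), (3, 261), (0,
  0), (3, 267), (0, 0), (0, 0), (0, 0)]),
  (([], [6]), [(3, 33), (0, 0), (0, 0), (0, 0), (3, 202), (3, 230), (0, 0), (3, 273), (0, 0), (0,
  0), (3, 278), (3, 279), (0, 0)]),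
  (([], [6, 7]), [(3, 39), (0, 0), (0, 0), (0, 0), (3, 203), (3, 231), (0, 0), (0, 0), (0, 0), (2,
  242), (3, 274), (3, 275), (0, 0)]),
  (([], [6, 7, 10]), [(0, 0), (0, 0), (0, 0), (0, 0), (3, 206), (3, 245), (0, 0), (0, 0), (0, 0),
  (2, 244), (0, 0), (0, 0), (0, 0)]),
  (([], [6, 7, 11]), [(3, 42), (0, 0), (2, 276), (3, 186), (0, 0), (3, 246), (0, 0), (0, 0), (0,
  0), (0, 0), (0, 0), (0, 0), (0, 0)]),
  (([2], [6, 7, 11]), [(3, 37), (0, 0), (0, 0), (0, 0), (3, 277), (3, 247), (0, 0), (0, 0), (0,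
  0), (2, 36), (0, 0), (0, 0), (0, 0)]),
  (([2], [6, 7, 11, 4]), [(3, 23), (0, 0), (0, 0), (0, 0), (0, 0), (3, 248), (0, 0), (0, 0), (0,
  0), (0, 0), (0, 0), (0, 0), (0, 0)]),
  (([], [6, 10]), [(0, 0), (0, 0), (0, 0), (0, 0), (3, 210), (3, 249), (0, 0), (3, 274), (0, 0),
  (2, 250), (0, 0), (0, 0), (0, 0)]),
  (([], [6, 11]), [(3, 43), (0, 0), (2, 280), (3, 200), (0, 0), (3, 251), (0, 0), (3, 275), (0,
  0), (3, 282), (0, 0), (0, 0), (0, 0)]),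
  (([2], [6, 11]), [(3, 38), (0, 0), (0, 0), (0, 0), (3, 281), (3, 252), (0, 0), (3, 276), (0, 0),
  (0, 0), (0, 0), (0, 0), (0, 0)]),
  (([2], [6, 11, 4]), [(3, 24), (0, 0), (0, 0), (0, 0), (0, 0), (3, 253), (0, 0), (3, 277), (0,
  0), (0, 0), (0, 0), (0, 0), (0, 0)]),
  (([], [6, 11, 9]), [(3, 44), (0, 0), (0, 0), (3, 195), (0, 0), (3, 254), (0, 0), (0, 0), (0, 0),
  (0, 0), (0, 0), (0, 0), (0, 0)]),
  (([], [7]), [(3, 45), (3, 128), (3, 160), (3, 164), (3, 211), (3, 255), (3, 273), (0, 0), (3,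
  284), (0, 0), (3, 286), (3, 287), (0, 0)]),
  (([], [7, 8]), [(3, 46), (0, 0), (0, 0), (0, 0), (3, 212), (0, 0), (0, 0), (0, 0), (0, 0), (0,
  0), (0, 0), (3, 285), (0, 0)]),
  (([], [7, 8, 11]), [(3, 52), (0, 0), (0, 0), (0, 0), (0, 0), (0, 0), (0, 0), (0, 0), (0, 0), (0,
  0), (0, 0), (0, 0), (0, 0)]),
  (([], [7, 10]), [(0, 0), (3, 129), (0, 0), (3, 165), (3, 218), (3, 256), (3, 274), (0, 0), (0,
  0), (0, 0), (0, 0), (0, 0), (0, 0)]),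
  (([], [7, 11]), [(3, 54), (3, 137), (0, 0), (3, 179), (0, 0), (3, 259), (3, 275), (0, 0), (3,
  285), (0, 0), (0, 0), (0, 0), (0, 0)]),
  (([], [8]), [(3, 55), (0, 0), (0, 0), (0, 0), (3, 220), (0, 0), (0, 0), (3, 284), (0, 0), (3,
  289), (0, 0), (3, 299), (0, 0)]),
  (([], [8, 9]), [(0, 0), (2, 290), (0, 0), (0, 0), (3, 221), (0, 0), (2, 294), (0, 0), (0, 0),
  (0, 0), (0, 0), (3, 298), (0, 0)]),
  (([1], [8, 9]), [(3, 57), (0, 0), (2, 58), (0, 0), (3, 222), (3, 291), (0, 0), (0, 0), (0, 0),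
  (0, 0), (0, 0), (3, 293), (0, 0)]),
  (([1], [8, 9, 5]), [(0, 0), (0, 0), (2, 58), (0, 0), (0, 0), (0, 0), (0, 0), (0, 0), (0, 0), (0,
  0), (0, 0), (3, 292), (0, 0)]),
  (([1], [8, 9, 5, 11]), [(0, 0), (0, 0), (2, 58), (0, 0), (0, 0), (0, 0), (0, 0), (0, 0), (0, 0),
  (0, 0), (0, 0), (0, 0), (0, 0)]),
  (([1], [8, 9, 11]), [(3, 59), (0, 0), (2, 58), (0, 0), (0, 0), (3, 292), (0, 0), (0, 0), (0, 0),
  (0, 0), (0, 0), (0, 0), (0, 0)]),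
  (([6], [8, 9]), [(0, 0), (0, 0), (0, 0), (3, 295), (0, 0), (3, 296), (0, 0), (0, 0), (0, 0), (0,
  0), (0, 0), (0, 0), (0, 0)]),
  (([6], [8, 9, 3]), [(0, 0), (0, 0), (0, 0), (0, 0), (0, 0), (0, 0), (0, 0), (0, 0), (0, 0), (0,
  0), (0, 0), (0, 0), (0, 0)]),
  (([6], [8, 9, 5]), [(0, 0), (0, 0), (2, 297), (0, 0), (0, 0), (0, 0), (0, 0), (0, 0), (0, 0),
  (0, 0), (0, 0), (0, 0), (0, 0)]),
  (([6, 2], [8, 9, 5]), [(0, 0), (0, 0), (0, 0), (0, 0), (0, 0), (0, 0), (0, 0), (0, 0), (0, 0),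
  (0, 0), (0, 0), (0, 0), (0, 0)]),
  (([], [8, 9, 11]), [(3, 63), (2, 293), (0, 0), (0, 0), (0, 0), (0, 0), (0, 0), (0, 0), (0, 0),
  (0, 0), (0, 0), (0, 0), (0, 0)]),
  (([], [8, 11]), [(3, 62), (0, 0), (0, 0), (0, 0), (0, 0), (0, 0), (0, 0), (3, 285), (0, 0), (3,
  298), (0, 0), (0, 0), (0, 0)]),
  (([], [9]), [(0, 0), (0, 0), (3, 162), (3, 191), (3, 225), (3, 263), (0, 0), (0, 0), (3, 289),
  (0, 0), (0, 0), (3, 301), (0, 0)]),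
  (([], [9, 11]), [(3, 65), (0, 0), (0, 0), (3, 192), (0, 0), (3, 265), (3, 282), (0, 0), (3,
  298), (0, 0), (0, 0), (0, 0), (0, 0)]),
  (([], [10]), [(0, 0), (3, 138), (0, 0), (3, 196), (3, 228), (3, 268), (3, 278), (3, 286), (0,
  0), (0, 0), (0, 0), (0, 0), (0, 0)]),
  (([], [11]), [(3, 64), (3, 139), (0, 0), (3, 197), (0, 0), (3, 269), (3, 279), (3, 287), (3,
  299), (3, 301), (0, 0), (0, 0), (0, 0)])]

theorem rws_ok : rws.all (chr 13 X1 (rws.map Prod.fst)) = true := by decide +kernel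

theorem rws_root : (rws.map Prod.fst).head? = some ([], []) := by decide +kernel

end Pool.Agent.V11201.LC
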