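import Mathlib

set_option autoImplicit false

/-!
Definitions for simplicial complexes on the vertex set `Fin n`: triangulated balls, non-evasive
complexes, and locally constructible (LC) complexes.
-/

namespace Pool.Agent.V11201.LC

variable {n : ℕ}

/-- A finite simplicial complex on the vertex set `Fin n`, given by the family of its faces; the
empty set is a face. (An element `v` of `Fin n` is a vertex of the complex when `{v}` is a face.) -/
def IsComplex (K : Finset (Finset (Fin n))) : Prop :=
  ∅ ∈ K ∧ ∀ s ∈ K, ∀ t : Finset (Fin n), t ⊆ s → t ∈ K

/-- The geometric realization: the points of the standard simplex whose support lies in a face. -/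
def Realization (K : Finset (Finset (Fin n))) : Set (Fin n → ℝ) :=
  {x | (∀ i, 0 ≤ x i) ∧ ∑ i, x i = 1 ∧ ∃ s ∈ K, ∀ i, i ∉ s → x i = 0}

/-- A triangulated `d`-ball. -/
def IsBall (d : ℕ) (K : Finset (Finset (Fin n))) : Prop :=
  IsComplex K ∧
    Nonempty (↥(Realization K) ≃ₜ ↥(Metric.closedBall (0 : EuclideanSpace ℝ (Fin d)) 1))

/-- The deletion of a vertex: the faces that do not contain it. -/
def deletion (K : Finset (Finset (Fin n))) (v : Fin n) : Finset (Finset (Fin n)) :=
  K.filter (fun s => v ∉ s)

/-- The link of a vertex. -/
def link (K : Finset (Finset (Fin n))) (v : Fin n) : Finset (Finset (Fin n)) :=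
  K.filter (fun s => v ∉ s ∧ insert v s ∈ K)

/-- Non-evasive complexes: a single vertex is non-evasive, and a complex is non-evasive if it has
a vertex whose deletion and whose link are both non-evasive. (If `v` is the only vertex of `K`,
its deletion and its link have no vertex and are not non-evasive, so the second rule only applies
to complexes with more than one vertex.) -/
inductive NonEvasive : Finset (Finset (Fin n)) → Prop
  | vertex (v : Fin n) : NonEvasive {∅, {v}}
  | step (K : Finset (Finset (Fin n))) (v : Fin n) : {v} ∈ K →
      NonEvasive (deletion K v) → NonEvasive (link K v) → NonEvasive K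

/-- The `d`-simplices of a complex. -/
def facets (K : Finset (Finset (Fin n))) (d : ℕ) : Finset (Finset (Fin n)) :=
  K.filter (fun s => s.card = d + 1)

/-- Let `A` be a family of `d`-simplices, and let `G` be a family of `(d-1)`-faces. Glue the
disjoint union of the simplices of `A` as follows: whenever `r ∈ G` is contained in two members
of `A`, glue these two simplices along their copies of `r`. `SameFace A G e P Q` says that in the
glued space the copy of the face `e` in the simplex `P` and the copy of `e` in the simplex `Q`
are the same face: one gets from `P` to `Q` by successively crossing glued `(d-1)`-faces that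
contain `e`. -/
def SameFace (A G : Finset (Finset (Fin n))) (e P Q : Finset (Fin n)) : Prop :=
  Relation.ReflTransGen
    (fun X Y => X ∈ A ∧ Y ∈ A ∧ ∃ r ∈ G, e ⊆ r ∧ r ⊆ X ∧ r ⊆ Y) P Q

/-- The stages `T_1, T_2, …` of a local construction of `K`. A stage `T` is obtained from
`d`-simplices by gluing `(d-1)`-faces, and it is described by the pair `(A, G)`, where `A` is the
set of the `d`-simplices of `K` that are present in `T`, and `G` is the set of the `(d-1)`-faces
of `K` along which two members of `A` are already glued (see `SameFace`; the stage is in general
not a subcomplex of `K`, as `P, Q ∈ A` may share a `(d-1)`-face of `K` that is not yet glued).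
The boundary `(d-1)`-faces of the stage `(A, G)` are the copies of `r` in the simplices `P ∈ A`
with `r ⊆ P` and `r ∉ G`.
* `start`: the first stage is a single `d`-simplex;
* `attach`: a new `d`-simplex `F` is attached along one boundary `(d-1)`-face, the copy of `r`
  in `P`;
* `glue`: two distinct boundary `(d-1)`-faces, the copies of `r` in `P` and in `Q`, are
  identified; it is required that they share a common `(d-2)`-face `e` in this stage. -/
inductive Stage (K : Finset (Finset (Fin n))) (d : ℕ) :
    Finset (Finset (Fin n)) → Finset (Finset (Fin n)) → Prop
  | start (F : Finset (Fin n)) : F ∈ facets K d → Stage K d {F} ∅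
  | attach (A G : Finset (Finset (Fin n))) (F P r : Finset (Fin n)) : Stage K d A G →
      F ∈ facets K d → F ∉ A → P ∈ A → r.card = d → r ⊆ F → r ⊆ P → r ∉ G →
      Stage K d (insert F A) (insert r G)
  | glue (A G : Finset (Finset (Fin n))) (P Q r e : Finset (Fin n)) : Stage K d A G →
      P ∈ A → Q ∈ A → P ≠ Q → r.card = d → r ⊆ P → r ⊆ Q → r ∉ G →
      e ⊆ r → e.card + 1 = d → SameFace A G e P Q → Stage K d A (insert r G)

/-- A locally constructible (LC) complex of dimension `d`: it is pure, every `(d-1)`-face lies in
at most two `d`-simplices, and there is a stage of a local construction which contains all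
`d`-simplices and which is the complex itself, that is, for every nonempty face `e` of `K` the
copies of `e` in all `d`-simplices that contain it have been identified. -/
structure LocallyConstructible (d : ℕ) (K : Finset (Finset (Fin n))) : Prop where
  pure : ∀ s ∈ K, ∃ F ∈ facets K d, s ⊆ F
  pseudomanifold : ∀ r ∈ K, r.card = d → ((facets K d).filter (fun F => r ⊆ F)).card ≤ 2
  construction : ∃ G : Finset (Finset (Fin n)), Stage K d (facets K d) G ∧
    ∀ e ∈ K, e.Nonempty → ∀ P ∈ facets K d, ∀ Q ∈ facets K d, e ⊆ P → e ⊆ Q →
      SameFace (facets K d) G e P Q

end Pool.Agent.V11201.LC
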