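import Pool.Agent.V11201.LC.Data

set_option autoImplicit false
set_option linter.unusedSectionVars false
open Finset

namespace Pool.Agent.V11201.LC
open Pool.Agent.V11201.RP Pool.Agent.V11201.EB

theorem cx : IsComplex (dec 13 X1) := isComplex_of X1_eq (by decide)

/-- the vertices of the last simplex -/
def pe : Fin 4 ↪ Fin 13 := ⟨![2, 4, 9, 11], by decide⟩

theorem ms_pe : ms 13 2580 = univ.map pe := by
  ext i
  rw [mem_ms]
  fin_cases i <;> decide

theorem ball : IsBall 3 (dec 13 X1) := by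
  refine ⟨cx, ?_⟩
  obtain ⟨e⟩ := chain_spec fls_ok
  obtain ⟨f⟩ := simplex_ball pe ms_pe
  exact ⟨(Homeomorph.setCongr (real_eq X1_eq)).trans (e.trans f)⟩

theorem lc : LocallyConstructible 3 (dec 13 X1) :=
  lc_of X1_eq X1_tab l1_ok root_ok sts_ok lA_ok lA_ok2 tab_ok

theorem evasive : ¬ NonEvasive (dec 13 X1) :=
  not_nonEvasive (ev cx.2 rws rws_ok (List.mem_of_head? rws_root))

end Pool.Agent.V11201.LC
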